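import Pool.Agent.Helper561.FomJordan

set_option autoImplicit false

namespace Pool.Agent.Helper561.FOM

open Module

section finite

variable {E G : Type*} [NormedAddCommGroup E] [NormedSpace ℂ E] [FiniteDimensional ℂ E] [Group G]

/-- two sided bound for a homogeneous map without zeros -/
lemma exists_bounds [Nontrivial E] (f : E → E) (hf : Continuous f) (d : ℕ) (hd : 2 ≤ d)
    (hhom : ∀ (t : ℂ) x, f (t • x) = t ^ d • f x) (h0 : ∀ x, f x = 0 → x = 0) :
    ∃ c C : ℝ, 0 < c ∧ 0 < C ∧ ∀ x, c * ‖x‖ ^ d ≤ ‖f x‖ ∧ ‖f x‖ ≤ C * ‖x‖ ^ d := by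
  have : ProperSpace E := FiniteDimensional.proper ℂ E
  have hcomp : IsCompact (Metric.sphere (0 : E) 1) := isCompact_sphere 0 1
  have hne : (Metric.sphere (0 : E) 1).Nonempty := by
    obtain ⟨v, hv⟩ := exists_ne (0 : E)
    refine ⟨((‖v‖ : ℂ))⁻¹ • v, ?_⟩
    rw [mem_sphere_zero_iff_norm, norm_smul, norm_inv, Complex.norm_real, norm_norm]
    exact inv_mul_cancel₀ (by simpa using hv)
  obtain ⟨a, ha, hamin⟩ := hcomp.exists_isMinOn hne hf.norm.continuousOn
  obtain ⟨b, hb, hbmax⟩ := hcomp.exists_isMaxOn hne hf.norm.continuousOn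
  have ha0 : 0 < ‖f a‖ := by
    rw [norm_pos_iff]
    intro h
    have := h0 a h
    rw [this] at ha
    simp at ha
  have key : ∀ x : E, x ≠ 0 → ∃ u ∈ Metric.sphere (0 : E) 1, ‖f x‖ = ‖x‖ ^ d * ‖f u‖ := by
    intro x hx
    have hx2 : ‖x‖ ≠ 0 := by simpa using hx
    refine ⟨((‖x‖ : ℂ))⁻¹ • x, ?_, ?_⟩
    · rw [mem_sphere_zero_iff_norm, norm_smul, norm_inv, Complex.norm_real, norm_norm]
      exact inv_mul_cancel₀ hx2
    · rw [hhom, norm_smul, norm_pow, norm_inv, Complex.norm_real, norm_norm, ← mul_assoc,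
        ← mul_pow, mul_inv_cancel₀ hx2, one_pow, one_mul]
  have hfa : ‖f a‖ ≤ ‖f b‖ := hbmax ha
  refine ⟨‖f a‖, ‖f b‖, ha0, lt_of_lt_of_le ha0 hfa, fun x => ?_⟩
  by_cases hx : x = 0
  · subst hx
    have hf0 : f 0 = (0 : ℂ) ^ d • f 0 := by
      have := hhom 0 0
      rwa [smul_zero] at this
    have hd0 : d ≠ 0 := by omega
    rw [zero_pow hd0, zero_smul] at hf0
    rw [hf0]
    simp [hd0]
  · obtain ⟨u, hu, hfu⟩ := key x hx
    rw [hfu]
    have h1 : ‖f a‖ ≤ ‖f u‖ := hamin hu
    have h2 : ‖f u‖ ≤ ‖f b‖ := hbmax hu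
    have h3 : 0 ≤ ‖x‖ ^ d := by positivity
    constructor
    · rw [mul_comm]; exact mul_le_mul_of_nonneg_left h1 h3
    · rw [mul_comm ‖f b‖]; exact mul_le_mul_of_nonneg_left h2 h3

/-- the linear maps commuting with `f` are uniformly bounded -/
lemma exists_norm_bound [Nontrivial E] (f : E → E) (hf : Continuous f) (d : ℕ) (hd : 2 ≤ d)
    (hhom : ∀ (t : ℂ) x, f (t • x) = t ^ d • f x) (h0 : ∀ x, f x = 0 → x = 0) :
    ∃ R : ℝ, 1 ≤ R ∧ ∀ T : E →L[ℂ] E, (∀ x, f (T x) = T (f x)) → ‖T‖ ≤ R := by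
  obtain ⟨c, C, hc, hC, hb⟩ := exists_bounds f hf d hd hhom h0
  refine ⟨max 1 (C / c), le_max_left _ _, fun T hT => ?_⟩
  by_cases h1 : ‖T‖ ≤ 1
  · exact h1.trans (le_max_left _ _)
  push Not at h1
  refine le_trans ?_ (le_max_right _ _)
  set a := ‖T‖ with ha
  have ha0 : 0 < a := by linarith
  set K := C / c with hK
  have hK0 : 0 < K := by positivity
  have hd0 : d ≠ 0 := by omega
  set B := (K * a) ^ ((d : ℝ)⁻¹) with hB
  have hBd : B ^ d = K * a := Real.rpow_inv_natCast_pow (by positivity) hd0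
  have hB0 : 0 ≤ B := by positivity
  have hTB : a ≤ B := by
    refine T.opNorm_le_bound hB0 (fun x => ?_)
    have h2 : c * ‖T x‖ ^ d ≤ a * (C * ‖x‖ ^ d) := by
      calc c * ‖T x‖ ^ d ≤ ‖f (T x)‖ := (hb _).1
        _ = ‖T (f x)‖ := by rw [hT]
        _ ≤ a * ‖f x‖ := T.le_opNorm _
        _ ≤ a * (C * ‖x‖ ^ d) := by gcongr; exact (hb _).2
    have h3 : ‖T x‖ ^ d ≤ (B * ‖x‖) ^ d := by
      rw [mul_pow, hBd, hK]
      rw [div_mul_eq_mul_div, div_mul_eq_mul_div, le_div_iff₀ hc]
      linarith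
    exact le_of_pow_le_pow_left₀ hd0 (by positivity) h3
  have h4 : a ^ d ≤ K * a := by
    calc a ^ d ≤ B ^ d := by gcongr
      _ = K * a := hBd
  have h5 : a ^ 2 ≤ a ^ d := pow_le_pow_right₀ h1.le hd
  have h6 : a * a ≤ K * a := by nlinarith
  exact le_of_mul_le_mul_right h6 ha0

/-- eigenvalues are roots of unity -/
lemma eigenvalue_pow (f : E → E) (d : ℕ) (hd : 2 ≤ d)
    (hhom : ∀ (t : ℂ) x, f (t • x) = t ^ d • f x) (h0 : ∀ x, f x = 0 → x = 0)
    (φ : E →ₗ[ℂ] E) (hφ : ∀ x, f (φ x) = φ (f x)) (hinj : Function.Injective φ) (μ : ℂ)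
    (hμ : Module.End.HasEigenvalue φ μ) :
    μ ^ (d ^ finrank ℂ E).factorial = 1 := by
  classical
  have hstep : ∀ ν : ℂ, Module.End.HasEigenvalue φ ν → Module.End.HasEigenvalue φ (ν ^ d) := by
    intro ν hν
    obtain ⟨v, hv⟩ := hν.exists_hasEigenvector
    have h1 : φ v = ν • v := hv.apply_eq_smul
    have h2 : φ (f v) = ν ^ d • f v := by rw [← hφ, h1, hhom]
    refine Module.End.hasEigenvalue_of_hasEigenvector (x := f v) ?_
    exact ⟨Module.End.mem_eigenspace_iff.mpr h2, fun h => hv.2 (h0 v h)⟩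
  have hall : ∀ k, Module.End.HasEigenvalue φ (μ ^ (d ^ k)) := by
    intro k
    induction k with
    | zero => simpa using hμ
    | succ k ih =>
      have := hstep _ ih
      rwa [← pow_mul, ← pow_succ] at this
  set n := finrank ℂ E with hn
  set s : Finset ℂ := (LinearMap.charpoly φ).roots.toFinset with hs
  have hcharne : LinearMap.charpoly φ ≠ 0 := (LinearMap.charpoly_monic φ).ne_zero
  have hscard : s.card ≤ n := by
    calc s.card ≤ Multiset.card (LinearMap.charpoly φ).roots := Multiset.toFinset_card_le _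
      _ ≤ (LinearMap.charpoly φ).natDegree := Polynomial.card_roots' _
      _ = n := LinearMap.charpoly_natDegree φ
  have hmem : ∀ k ∈ Finset.range (n + 1), μ ^ (d ^ k) ∈ s := by
    intro k _
    rw [hs, Multiset.mem_toFinset, Polynomial.mem_roots hcharne,
      ← Module.End.hasEigenvalue_iff_isRoot_charpoly]
    exact hall k
  obtain ⟨a, ha, b, hb, hab, heq⟩ := Finset.exists_ne_map_eq_of_card_lt_of_maps_to
    (s := Finset.range (n + 1)) (t := s) (by rw [Finset.card_range]; omega) hmem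
  have hμ0 : μ ≠ 0 := by
    intro h
    obtain ⟨v, hv⟩ := hμ.exists_hasEigenvector
    have h1 : φ v = μ • v := hv.apply_eq_smul
    rw [h, zero_smul] at h1
    exact hv.2 (hinj (by rw [h1, map_zero]))
  have main : ∀ a b : ℕ, a < b → b ≤ n → μ ^ d ^ a = μ ^ d ^ b → μ ^ (d ^ n).factorial = 1 := by
    intro a b hab hb heq
    have hlt : d ^ a < d ^ b := Nat.pow_lt_pow_right (by omega) hab
    have h1 : μ ^ (d ^ b - d ^ a) = 1 := by
      have h2 : μ ^ (d ^ b - d ^ a) * μ ^ (d ^ a) = 1 * μ ^ (d ^ a) := by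
        rw [← pow_add, Nat.sub_add_cancel hlt.le, one_mul, heq]
      exact mul_right_cancel₀ (pow_ne_zero _ hμ0) h2
    have h3 : d ^ b - d ^ a ∣ (d ^ n).factorial := by
      apply Nat.dvd_factorial (by omega)
      have : d ^ b ≤ d ^ n := Nat.pow_le_pow_right (by omega) hb
      omega
    obtain ⟨q, hq⟩ := h3
    rw [hq, pow_mul, h1, one_pow]
  rw [Finset.mem_range] at ha hb
  rcases lt_or_gt_of_ne hab with h | h
  · exact main a b h (by omega) heq
  · exact main b a h (by omega) heq.symm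

/-- a nilpotent perturbation of one with bounded powers is one -/
lemma eq_one_of_unipotent_bounded {R : Type*} [NormedRing R] [NormedAlgebra ℝ R] (u : R) (B : ℝ)
    (hB : ∀ m : ℕ, ‖u ^ m‖ ≤ B) (hu : IsNilpotent (u - 1)) : u = 1 := by
  classical
  set Z := u - 1 with hZ
  by_contra hne
  have hex : ∃ s, Z ^ s = 0 := hu
  set s := Nat.find hex with hs
  have hs0 : Z ^ s = 0 := Nat.find_spec hex
  have hsmin : ∀ t < s, Z ^ t ≠ 0 := fun t ht => Nat.find_min hex ht
  have hZ0 : Z ≠ 0 := fun h => hne (sub_eq_zero.mp h)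
  have hs2 : 2 ≤ s := by
    by_contra h
    interval_cases hsv : s
    · rw [pow_zero] at hs0
      exact hZ0 (by rw [← mul_one Z, hs0, mul_zero])
    · rw [pow_one] at hs0
      exact hZ0 hs0
  obtain ⟨t, ht⟩ : ∃ t, s = t + 2 := ⟨s - 2, by omega⟩
  have h1 : Z ^ (t + 1) ≠ 0 := hsmin _ (by omega)
  have h2 : Z ^ (t + 2) = 0 := by rw [← ht]; exact hs0
  have hpow : ∀ m : ℕ, u ^ m * Z ^ t = Z ^ t + (m : ℝ) • Z ^ (t + 1) := by
    intro m
    induction m with
    | zero => simp
    | succ m ih =>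
      have hu' : u = 1 + Z := by rw [hZ]; abel
      rw [pow_succ', mul_assoc, ih, mul_add, mul_smul_comm]
      have e1 : u * Z ^ t = Z ^ t + Z ^ (t + 1) := by
        rw [hu', add_mul, one_mul, ← pow_succ']
      have e2 : u * Z ^ (t + 1) = Z ^ (t + 1) := by
        rw [hu', add_mul, one_mul, ← pow_succ', h2, add_zero]
      rw [e1, e2]
      push_cast
      rw [add_smul, one_smul]
      abel
  have hbound : ∀ m : ℕ, (m : ℝ) * ‖Z ^ (t + 1)‖ ≤ (B + 1) * ‖Z ^ t‖ := by
    intro m
    have : (m : ℝ) • Z ^ (t + 1) = u ^ m * Z ^ t - Z ^ t := by rw [hpow]; abel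
    calc (m : ℝ) * ‖Z ^ (t + 1)‖ = ‖(m : ℝ) • Z ^ (t + 1)‖ := by
          rw [norm_smul, Real.norm_natCast]
      _ = ‖u ^ m * Z ^ t - Z ^ t‖ := by rw [this]
      _ ≤ ‖u ^ m * Z ^ t‖ + ‖Z ^ t‖ := norm_sub_le _ _
      _ ≤ B * ‖Z ^ t‖ + ‖Z ^ t‖ := by
        gcongr
        refine (norm_mul_le _ _).trans ?_
        gcongr
        exact hB m
      _ = _ := by ring
  have hpos : 0 < ‖Z ^ (t + 1)‖ := norm_pos_iff.mpr h1
  obtain ⟨m, hm⟩ := exists_nat_gt ((B + 1) * ‖Z ^ t‖ / ‖Z ^ (t + 1)‖)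
  rw [div_lt_iff₀ hpos] at hm
  exact absurd (hbound m) (not_le.mpr hm)

/-- an endomorphism with only eigenvalue `1` is unipotent -/
lemma isNilpotent_sub_one (φ : Module.End ℂ E)
    (h : ∀ μ, Module.End.HasEigenvalue φ μ → μ = 1) : IsNilpotent (φ - 1) := by
  have htop := Module.End.iSup_maxGenEigenspace_eq_top φ
  have h1 : Module.End.maxGenEigenspace φ 1 = ⊤ := by
    rw [eq_top_iff, ← htop]
    apply iSup_le
    intro μ
    by_cases hμ : μ = 1
    · rw [hμ]
    · have : Module.End.maxGenEigenspace φ μ = ⊥ := by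
        by_contra hne
        apply hμ
        apply h
        exact (Module.End.hasUnifEigenvalue_iff_hasUnifEigenvalue_one ENat.top_pos).mp hne
      rw [this]; exact bot_le
  rw [Module.End.maxGenEigenspace_eq_genEigenspace_finrank] at h1
  refine ⟨finrank ℂ E, ?_⟩
  ext x
  have hx : x ∈ (Module.End.genEigenspace φ 1) (finrank ℂ E) := by rw [h1]; trivial
  rw [Module.End.mem_genEigenspace_nat] at hx
  simpa using hx

/-- a torsion group of bounded exponent with bounded norms is finite -/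
lemma finite_of_bounded_exponent {R : Type*} [NormedRing R] [NormedAlgebra ℝ R]
    [FiniteDimensional ℝ R] (T : G →* R) (hinj : Function.Injective T) (B : ℝ)
    (hB : ∀ g, ‖T g‖ ≤ B) (hB1 : 1 ≤ B) (e : ℕ) (he : 0 < e) (hexp : ∀ g : G, g ^ e = 1) :
    Finite G := by
  have her : (0 : ℝ) < e := by exact_mod_cast he
  set δ : ℝ := 1 / (2 * e * B) with hδ
  have hδ0 : 0 < δ := by positivity
  -- elements close to one are one
  have hclose : ∀ g : G, ‖T g - 1‖ < δ → g = 1 := by
    intro g hg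
    have hstep : ∀ m : ℕ, ‖T (g ^ m) - 1‖ ≤ m * (B * δ) := by
      intro m
      induction m with
      | zero => simp
      | succ m ih =>
        have : T (g ^ (m + 1)) - 1 = T (g ^ m) * (T g - 1) + (T (g ^ m) - 1) := by
          rw [pow_succ, map_mul, mul_sub, mul_one]; abel
        rw [this]
        calc _ ≤ ‖T (g ^ m) * (T g - 1)‖ + ‖T (g ^ m) - 1‖ := norm_add_le _ _
          _ ≤ B * δ + m * (B * δ) := by
            gcongr
            refine (norm_mul_le _ _).trans ?_
            gcongr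
            exact hB _
          _ = _ := by push_cast; ring
    refine eq_one_of_powers_close T hinj g ?_ (1 / 2) (by norm_num) (fun m => ?_)
    · exact (isOfFinOrder_iff_pow_eq_one.mpr ⟨e, he, hexp g⟩).orderOf_pos
    · have h1 : g ^ m = g ^ (m % e) := by
        conv_lhs => rw [← Nat.div_add_mod m e, pow_add, pow_mul, hexp, one_pow, one_mul]
      rw [h1]
      refine (hstep _).trans ?_
      have h2 : ((m % e : ℕ) : ℝ) ≤ e := by exact_mod_cast (Nat.mod_lt m he).le
      calc ((m % e : ℕ) : ℝ) * (B * δ) ≤ e * (B * δ) := by gcongr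
        _ = 1 / 2 := by rw [hδ]; field_simp
  have hsep : ∀ g h : G, ‖T g - T h‖ < δ / B → g = h := by
    intro g h hgh
    have : h⁻¹ * g = 1 := by
      apply hclose
      have e1 : T (h⁻¹ * g) - 1 = T h⁻¹ * (T g - T h) := by
        rw [mul_sub, ← map_mul, ← map_mul, inv_mul_cancel, map_one]
      rw [e1]
      calc _ ≤ ‖T h⁻¹‖ * ‖T g - T h‖ := norm_mul_le _ _
        _ ≤ B * ‖T g - T h‖ := by gcongr; exact hB _
        _ < B * (δ / B) := by gcongr
        _ = δ := by field_simp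
    exact (inv_mul_eq_one.mp this).symm
  have : ProperSpace R := FiniteDimensional.proper ℝ R
  have htb : TotallyBounded (Set.range T) := by
    refine TotallyBounded.subset ?_ (isCompact_closedBall (0 : R) B).totallyBounded
    rintro _ ⟨g, rfl⟩
    rw [mem_closedBall_zero_iff]
    exact hB g
  rw [Metric.totallyBounded_iff] at htb
  obtain ⟨t, htf, ht⟩ := htb (δ / B / 2) (by positivity)
  have hch : ∀ g : G, ∃ y ∈ t, T g ∈ Metric.ball y (δ / B / 2) := by
    intro g
    have := ht ⟨g, rfl⟩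
    simpa using this
  choose y hy hyb using hch
  have : Finite t := htf
  refine Finite.of_injective (fun g => (⟨y g, hy g⟩ : t)) (fun g h hgh => ?_)
  have hyy : y g = y h := congrArg Subtype.val hgh
  apply hsep
  have h1 := hyb g
  have h2 := hyb h
  rw [mem_ball_iff_norm] at h1 h2
  rw [← hyy] at h2
  calc ‖T g - T h‖ = ‖(T g - y g) - (T h - y g)‖ := by congr 1; abel
    _ ≤ ‖T g - y g‖ + ‖T h - y g‖ := norm_sub_le _ _
    _ < δ / B / 2 + δ / B / 2 := add_lt_add h1 h2
    _ = δ / B := by ring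

/-- the stabiliser of a homogeneous map without zeros is finite -/
theorem finite_of_commute [Nontrivial E] (f : E → E) (hf : Continuous f) (d : ℕ) (hd : 2 ≤ d)
    (hhom : ∀ (t : ℂ) x, f (t • x) = t ^ d • f x) (h0 : ∀ x, f x = 0 → x = 0)
    (ρ : G →* (E →ₗ[ℂ] E)) (hinj : Function.Injective ρ) (hρ : ∀ g x, f (ρ g x) = ρ g (f x)) :
    Finite G := by
  let Λ : (E →ₗ[ℂ] E) ≃ₐ[ℂ] (E →L[ℂ] E) := Module.End.toContinuousLinearMap E
  let T : G →* (E →L[ℂ] E) := (Λ : (E →ₗ[ℂ] E) →* (E →L[ℂ] E)).comp ρ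
  have hTa : ∀ g x, T g x = ρ g x := fun g x => rfl
  have hTinj : Function.Injective T := by
    intro g h hgh
    exact hinj (Λ.injective hgh)
  obtain ⟨B, hB1, hB⟩ := exists_norm_bound f hf d hd hhom h0
  have hTB : ∀ g, ‖T g‖ ≤ B := fun g => hB (T g) (fun x => by rw [hTa, hTa]; exact hρ g x)
  set e := (d ^ finrank ℂ E).factorial with he
  have he0 : 0 < e := Nat.factorial_pos _
  refine finite_of_bounded_exponent T hTinj B hTB hB1 e he0 (fun g => ?_)
  have hgi : Function.Injective (ρ g) := by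
    intro x y hxy
    have h1 : ∀ z, ρ g⁻¹ (ρ g z) = z := by
      intro z
      have : (ρ g⁻¹ * ρ g) z = z := by rw [← map_mul, inv_mul_cancel, map_one]; rfl
      exact this
    rw [← h1 x, hxy, h1]
  have hnil : IsNilpotent (ρ (g ^ e) - 1) := by
    apply isNilpotent_sub_one
    intro μ hμ
    rw [map_pow, Module.End.hasEigenvalue_iff_mem_spectrum, spectrum.map_pow_of_pos _ he0] at hμ
    obtain ⟨ν, hν, rfl⟩ := hμ
    rw [← Module.End.hasEigenvalue_iff_mem_spectrum] at hν
    exact eigenvalue_pow f d hd hhom h0 (ρ g) (hρ g) hgi ν hν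
  have hnil' : IsNilpotent (T (g ^ e) - 1) := by
    have := hnil.map (Λ : (E →ₗ[ℂ] E) →+* (E →L[ℂ] E))
    rwa [map_sub, map_one] at this
  have h1 : T (g ^ e) = 1 := by
    refine eq_one_of_unipotent_bounded (T (g ^ e)) B (fun m => ?_) hnil'
    rw [← map_pow]; exact hTB _
  exact hTinj (by rw [h1, map_one])

end finite

section poly

open MvPolynomial

variable {n : ℕ}

lemma eval_smul_of_homogeneous {F : Type*} [Field F] {d : ℕ} (p : MvPolynomial (Fin n) F)
    (hp : p.IsHomogeneous d) (t : F) (x : Fin n → F) : eval (t • x) p = t ^ d * eval x p := by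
  rw [eval_eq', eval_eq', Finset.mul_sum]
  refine Finset.sum_congr rfl (fun s hs => ?_)
  have hdeg : ∑ i, s i = d := by
    have h1 : Finsupp.degree s = d := by
      by_contra hne
      exact (MvPolynomial.mem_support_iff.mp hs) (hp.coeff_eq_zero hne)
    rw [← h1, Finsupp.degree_eq_sum]
  have h2 : ∏ i, (t • x) i ^ s i = t ^ d * ∏ i, x i ^ s i := by
    rw [← hdeg, ← Finset.prod_pow_eq_pow_sum, ← Finset.prod_mul_distrib]
    refine Finset.prod_congr rfl (fun i _ => ?_)
    rw [Pi.smul_apply, smul_eq_mul, mul_pow]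
  rw [h2]; ring

/-- no common zeros over `F` implies no common zeros over `ℂ` -/
lemma no_zero_map {F : Type} [Field F] [IsAlgClosed F] (ι : F →+* ℂ)
    (f : Fin n → MvPolynomial (Fin n) F) (hf : ∀ x : Fin n → F, (∀ i, eval x (f i) = 0) → x = 0)
    (x : Fin n → ℂ) (hx : ∀ i, eval x (MvPolynomial.map ι (f i)) = 0) : x = 0 := by
  set I : Ideal (MvPolynomial (Fin n) F) := Ideal.span (Set.range f) with hI
  have hrad : ∀ j, (X j : MvPolynomial (Fin n) F) ∈ I.radical := by
    intro j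
    rw [← vanishingIdeal_zeroLocus_eq_radical (K := F) I, mem_vanishingIdeal_iff]
    intro y hy
    have hy0 : y = 0 := by
      apply hf
      intro i
      have := (mem_zeroLocus_iff.mp hy) (f i) (Ideal.subset_span ⟨i, rfl⟩)
      simpa [MvPolynomial.aeval_eq_eval] using this
    rw [hy0]
    simp
  have hker : I ≤ RingHom.ker ((eval x).comp (MvPolynomial.map ι)) := by
    rw [hI, Ideal.span_le]
    rintro _ ⟨i, rfl⟩
    exact hx i
  funext j
  obtain ⟨m, hm⟩ := hrad j
  have h1 := hker hm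
  rw [RingHom.mem_ker, map_pow] at h1
  have h2 : ((eval x).comp (MvPolynomial.map ι)) (X j) = x j := by simp
  rw [h2] at h1
  exact (pow_eq_zero_iff (n := m) (by
    rcases Nat.eq_zero_or_pos m with h | h
    · rw [h, pow_zero] at h1; exact absurd h1 one_ne_zero
    · exact h.ne')).mp h1

/-- equivariance passes to `ℂ` -/
lemma equivariant_map {F : Type} [Field F] [IsAlgClosed F] (ι : F →+* ℂ)
    (f : Fin n → MvPolynomial (Fin n) F) (M : Matrix (Fin n) (Fin n) F)
    (hM : ∀ (x : Fin n → F) i, eval (M.mulVec x) (f i) = ∑ j, M i j * eval x (f j))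
    (x : Fin n → ℂ) (i : Fin n) :
    eval ((M.map ι).mulVec x) (MvPolynomial.map ι (f i)) =
      ∑ j, ι (M i j) * eval x (MvPolynomial.map ι (f j)) := by
  have : Infinite F := IsAlgClosed.instInfinite
  have key : bind₁ (fun j => ∑ l, C (M j l) * X l) (f i) = ∑ j, C (M i j) * f j := by
    apply MvPolynomial.funext
    intro y
    have h1 : eval y (bind₁ (fun j => ∑ l, C (M j l) * X l) (f i)) = eval (M.mulVec y) (f i) := by
      have : eval y (bind₁ (fun j => ∑ l, C (M j l) * X l) (f i)) =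
          eval (fun j => eval y (∑ l, C (M j l) * X l)) (f i) := by
        rw [← MvPolynomial.coe_aeval_eq_eval, ← MvPolynomial.coe_aeval_eq_eval]
        exact MvPolynomial.aeval_bind₁ _ _ _
      rw [this]
      congr 2
      funext j
      simp [Matrix.mulVec, dotProduct]
    rw [h1, hM]
    simp
  have key2 := congrArg (MvPolynomial.map ι) key
  rw [MvPolynomial.map_bind₁] at key2
  have key3 := congrArg (eval x) key2
  have h1 : eval x (bind₁ (fun j => MvPolynomial.map ι (∑ l, C (M j l) * X l)) (MvPolynomial.map ι (f i)))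
      = eval ((M.map ι).mulVec x) (MvPolynomial.map ι (f i)) := by
    have : eval x (bind₁ (fun j => MvPolynomial.map ι (∑ l, C (M j l) * X l)) (MvPolynomial.map ι (f i))) =
        eval (fun j => eval x (MvPolynomial.map ι (∑ l, C (M j l) * X l))) (MvPolynomial.map ι (f i)) := by
      rw [← MvPolynomial.coe_aeval_eq_eval, ← MvPolynomial.coe_aeval_eq_eval]
      exact MvPolynomial.aeval_bind₁ _ _ _
    rw [this]
    congr 2
    funext j
    simp [Matrix.mulVec, dotProduct]
  rw [h1] at key3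
  rw [key3]
  simp

end poly

section main

open MvPolynomial

/-- PART I: finiteness of the stabiliser and a bounded index abelian subgroup. -/
theorem part1 (n : ℕ) : ∃ J : ℕ, ∀ (F : Type) [Field F] [IsAlgClosed F] (ι : F →+* ℂ) (d : ℕ),
    2 ≤ d → ∀ f : Fin n → MvPolynomial (Fin n) F, (∀ i, (f i).IsHomogeneous d) →
    (∀ x : Fin n → F, (fun i => eval x (f i)) = 0 → x = 0) →
    ∀ N : Subgroup ((Fin n → F) ≃ₗ[F] (Fin n → F)),
      (∀ g ∈ N, ∀ x, (fun i => eval (g x) (f i)) = g (fun i => eval x (f i))) →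
      Finite N ∧ ∃ A : Subgroup N, (∀ a ∈ A, ∀ b ∈ A, a * b = b * a) ∧ A.index ≤ J := by
  refine ⟨5 ^ (2 * (n * n)), ?_⟩
  intro F _ _ ι d hd f hhom hnz N hN
  -- the representation over `ℂ`
  let ρ : N →* ((Fin n → ℂ) →ₗ[ℂ] (Fin n → ℂ)) :=
    { toFun := fun g => Matrix.toLin' ((LinearMap.toMatrix' (g.1 : (Fin n → F) →ₗ[F] (Fin n → F))).map ι)
      map_one' := by
        have : LinearMap.toMatrix' (((1 : N).1 : (Fin n → F) ≃ₗ[F] (Fin n → F)) : (Fin n → F) →ₗ[F] (Fin n → F)) = 1 := by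
          exact LinearMap.toMatrix'_one
        rw [this, Matrix.map_one _ (map_zero ι) (map_one ι), Matrix.toLin'_one]
        rfl
      map_mul' := by
        intro g h
        have : LinearMap.toMatrix' (((g * h : N).1 : (Fin n → F) ≃ₗ[F] (Fin n → F)) : (Fin n → F) →ₗ[F] (Fin n → F)) =
          LinearMap.toMatrix' (g.1 : (Fin n → F) →ₗ[F] (Fin n → F)) *
            LinearMap.toMatrix' (h.1 : (Fin n → F) →ₗ[F] (Fin n → F)) := by
          exact LinearMap.toMatrix'_mul _ _
        rw [this, Matrix.map_mul, Matrix.toLin'_mul]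
        rfl }
  have hρinj : Function.Injective ρ := by
    intro g h hgh
    have h1 : (LinearMap.toMatrix' (g.1 : (Fin n → F) →ₗ[F] (Fin n → F))).map ι =
        (LinearMap.toMatrix' (h.1 : (Fin n → F) →ₗ[F] (Fin n → F))).map ι :=
      Matrix.toLin'.injective hgh
    have h2 := Matrix.map_injective ι.injective h1
    have h3 := LinearMap.toMatrix'.injective h2
    apply Subtype.ext
    exact LinearEquiv.toLinearMap_injective h3
  have hmat : ∀ (g : N) (x : Fin n → F) i, eval ((LinearMap.toMatrix' (g.1 : (Fin n → F) →ₗ[F] (Fin n → F))).mulVec x) (f i)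
      = ∑ j, (LinearMap.toMatrix' (g.1 : (Fin n → F) →ₗ[F] (Fin n → F))) i j * eval x (f j) := by
    intro g x i
    rw [LinearMap.toMatrix'_mulVec]
    have h1 := congrFun (hN g.1 g.2 x) i
    have h2 : (g.1 (fun i => eval x (f i))) i =
        ((LinearMap.toMatrix' (g.1 : (Fin n → F) →ₗ[F] (Fin n → F))).mulVec (fun i => eval x (f i))) i := by
      rw [LinearMap.toMatrix'_mulVec]; rfl
    rw [h2] at h1
    simpa [Matrix.mulVec, dotProduct] using h1
  let fC : (Fin n → ℂ) → (Fin n → ℂ) := fun x i => eval x (MvPolynomial.map ι (f i))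
  have hcomm : ∀ g x, fC (ρ g x) = ρ g (fC x) := by
    intro g x
    funext i
    have := equivariant_map ι f _ (hmat g) x i
    show eval (Matrix.toLin' _ x) _ = (Matrix.toLin' _ _) i
    rw [Matrix.toLin'_apply, Matrix.toLin'_apply, this]
    simp [Matrix.mulVec, dotProduct, fC]
  have hfin : Finite N := by
    rcases Nat.eq_zero_or_pos n with hn | hn
    · subst hn
      have : Subsingleton ((Fin 0 → F) ≃ₗ[F] (Fin 0 → F)) := by
        constructor
        intro a b
        ext x i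
        exact i.elim0
      infer_instance
    · have : Nonempty (Fin n) := ⟨⟨0, hn⟩⟩
      refine finite_of_commute (E := Fin n → ℂ) fC ?_ d hd ?_ ?_ ρ hρinj hcomm
      · exact continuous_pi (fun i => MvPolynomial.continuous_eval _)
      · intro t x
        funext i
        exact eval_smul_of_homogeneous _ ((hhom i).map ι) t x
      · intro x hx
        exact no_zero_map ι f (fun y hy => hnz y (funext hy)) x (fun i => congrFun hx i)
  refine ⟨hfin, ?_⟩
  obtain ⟨A, hA, hi⟩ := jordan_linear ρ hρinj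
  refine ⟨A, hA, hi.trans (le_of_eq ?_)⟩
  rw [Module.finrank_fin_fun]

end main

end Pool.Agent.Helper561.FOM

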