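import Pool.Agent.Helper561.Fan

set_option autoImplicit false

namespace Pool.Agent.Helper561.Kempe

variable {V : Type*} {κ : Type*}

theorem path_edge_inj {W : ℕ → V} {n : ℕ}
    (hinj : ∀ i j, i ≤ n + 1 → j ≤ n + 1 → W i = W j → i = j) {i k : ℕ} (hi : i ≤ n) (hk : k ≤ n)
    (h : s(W i, W (i + 1)) = s(W k, W (k + 1))) : i = k := by
  rw [Sym2.eq_iff] at h
  rcases h with ⟨h, _⟩ | ⟨h, h'⟩
  · exact hinj i k (by omega) (by omega) h
  · have h1 := hinj i (k + 1) (by omega) (by omega) h
    have h2 := hinj (i + 1) k (by omega) (by omega) h'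
    omega

/-- Moving the uncoloured edge along a two-coloured path. -/
theorem highway {E : Set (Sym2 V)} {c : Sym2 V → Option κ} {a b : κ} {W : ℕ → V} {n : ℕ}
    (hst : St E c (W 0) (W 1)) (ha : Miss c (W 0) a) (hb : Miss c (W 1) b)
    (hW : ∀ i < n, c s(W (i + 1), W (i + 2)) = some (alt a b i))
    (hinj : ∀ i j, i ≤ n + 1 → j ≤ n + 1 → W i = W j → i = j) (j : ℕ) (hj : j ≤ n) :
    ∃ d, St E d (W (j + 1)) (W j) ∧ Miss d (W j) (alt a b j) ∧
      Miss d (W (j + 1)) (alt a b (j + 1)) ∧
      (∀ i < j, d s(W i, W (i + 1)) = some (alt a b i)) ∧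
      (∀ e, (∀ i ≤ j, e ≠ s(W i, W (i + 1))) → d e = c e) ∧
      (∀ v g, v ≠ W 0 → v ≠ W 1 → Miss c v g → Miss d v g) := by
  induction j with
  | zero =>
    exact ⟨c, hst.symm, ha, hb, fun i hi => absurd hi (Nat.not_lt_zero i), fun _ _ => rfl,
      fun _ _ _ _ h => h⟩
  | succ j ih =>
    obtain ⟨d, h1, h2, h3, h4, h5, h6⟩ := ih (by omega)
    have hr : d s(W (j + 1), W (j + 2)) = some (alt a b j) := by
      rw [h5]
      · exact hW j (by omega)
      · intro i hi heq
        have := path_edge_inj hinj (show j + 1 ≤ n by omega) (show i ≤ n by omega) heq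
        omega
    refine ⟨shift d (W (j + 1)) (W j) (W (j + 2)) (alt a b j), (h1.shift hr h2).symm, ?_, ?_, ?_,
      ?_, ?_⟩
    · exact shift_miss h1 hr (fun h => by
        have := hinj _ _ (by omega) (by omega) h; omega) h3
    · rw [alt_add_two]
      exact shift_miss_r h1 hr
    · intro i hi
      rcases Nat.lt_succ_iff_lt_or_eq.1 hi with hi | rfl
      · rw [shift_of_ne, h4 i hi]
        · intro heq
          rw [Sym2.eq_swap (a := W (j + 1))] at heq
          have := path_edge_inj hinj (show i ≤ n by omega) (show j ≤ n by omega) heq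
          omega
        · intro heq
          have := path_edge_inj hinj (show i ≤ n by omega) (show j + 1 ≤ n by omega) heq
          omega
      · rw [Sym2.eq_swap]; exact shift_pq _ _ _ _ _
    · intro e he
      rw [shift_of_ne, h5 e (fun i hi => he i (by omega))]
      · rw [Sym2.eq_swap]; exact he j (by omega)
      · exact he (j + 1) le_rfl
    · intro v g hv0 hv1 hg
      by_cases hvj : v = W j
      · subst hvj
        obtain ⟨i, rfl⟩ : ∃ i, j = i + 2 := by
          rcases j with _ | _ | i
          · exact absurd rfl hv0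
          · exact absurd rfl hv1
          · exact ⟨i, rfl⟩
        apply shift_miss_q h1 hr (h6 _ _ hv0 hv1 hg)
        rintro rfl
        rw [alt_add_two] at hg
        exact hg (W (i + 1)) (by rw [Sym2.eq_swap]; exact hW i (by omega))
      · exact shift_miss h1 hr hvj (h6 v g hv0 hv1 hg)

theorem endpoints_finset {c : Sym2 V → Option κ} (hc : Proper c) (a b : κ) (s : V) :
    ∃ F : Finset V, F.card ≤ 2 ∧ ∀ v ∈ Kc c a b s, (Miss c v a ∨ Miss c v b) → v ∈ F := by
  classical
  by_cases h : ∃ v ∈ Kc c a b s, Miss c v a ∨ Miss c v b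
  · obtain ⟨v, hv, hvm⟩ := h
    by_cases h2 : ∃ u ∈ Kc c a b s, (Miss c u a ∨ Miss c u b) ∧ u ≠ v
    · obtain ⟨u, hu, hum, huv⟩ := h2
      refine ⟨{v, u}, Finset.card_le_two, ?_⟩
      intro w hw hwm
      by_cases hwv : w = v
      · simp [hwv]
      · have := endpoint_unique hc hvm (Kc_trans (Kc_symm hv) hu) (Kc_trans (Kc_symm hv) hw) huv hwv
          hum hwm
        simp [this]
    · push Not at h2
      refine ⟨{v}, by simp, ?_⟩
      intro w hw hwm
      simp [h2 w hw hwm]
  · push Not at h
    exact ⟨∅, by simp, fun v hv hm => by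
      rcases hm with hm | hm
      · exact absurd hm (h v hv).1
      · exact absurd hm (h v hv).2⟩

theorem exists_miss {k : ℕ} {E : Set (Sym2 V)} {N : V → Finset V}
    (hN : ∀ v w, s(v, w) ∈ E → w ∈ N v) (hk : ∀ v, (N v).card < k)
    {c : Sym2 V → Option (Fin k)} (_hc : Proper c) (hE : ∀ e, c e ≠ none → e ∈ E) (v : V) :
    ∃ a, Miss c v a := by
  classical
  by_contra h
  unfold Miss at h
  push Not at h
  choose w hw using h
  have hinj : Function.Injective w := by
    intro a b hab
    have h1 := hw a
    have h2 := hw b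
    rw [hab, h2] at h1
    exact (Option.some.inj h1).symm
  have hsub : Finset.univ.image w ⊆ N v := by
    intro y hy
    rw [Finset.mem_image] at hy
    obtain ⟨a, _, rfl⟩ := hy
    exact hN v _ (hE _ (by rw [hw a]; simp))
  have h1 := Finset.card_le_card hsub
  rw [Finset.card_image_of_injective _ hinj, Finset.card_univ, Fintype.card_fin] at h1
  exact absurd (hk v) (by omega)

/-- An uncoloured edge far away from a finite set `S` can be coloured without changing the colours
inside `S`. -/
theorem avoid {k : ℕ} {E : Set (Sym2 V)} {N : V → Finset V}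
    (hN : ∀ v w, s(v, w) ∈ E → w ∈ N v) (hk : ∀ v, (N v).card < k)
    (S : Finset V) (ρ : V → ℕ) (hρ : ∀ u v, s(u, v) ∈ E → ρ u ≤ ρ v + 1)
    (hS : ∀ v ∈ S, ρ v = 0) {x z₀ : V} {c : Sym2 V → Option (Fin k)} (hst : St E c x z₀)
    (hx : k * (2 * k * k * S.card + 2) + 6 ≤ ρ x) :
    ∃ c', Full E c' ∧ ∀ u ∈ S, ∀ v ∈ S, c' s(u, v) = c s(u, v) := by
  classical
  by_contra hNC
  set D := k * (2 * k * k * S.card + 2) + 6 with hD
  have hxS : x ∉ S := fun h => by have := hS x h; omega
  have hnot : ∀ y, y ∉ S → ∀ u ∈ S, ∀ v ∈ S, y ∉ s(u, v) := by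
    intro y hy u hu v hv h
    rw [Sym2.mem_iff] at h
    rcases h with rfl | rfl
    · exact hy hu
    · exact hy hv
  have hcE : ∀ {c : Sym2 V → Option (Fin k)} {p q : V}, St E c p q → ∀ e, c e ≠ none → e ∈ E :=
    fun h e he => (h.mem e).2 (Or.inl he)
  choose m₁ hm₁ using exists_miss hN hk hst.proper (hcE hst)
  rcases fan hst m₁ (fun v _ => hm₁ v) (N x) (fun v hv => hN x v hv) with
    ⟨c', hfull, hoff⟩ | ⟨ε, hε, H⟩
  · exact hNC ⟨c', hfull, fun u hu v hv => hoff _ (hnot x hxS u hu v hv)⟩
  set a := m₁ x with ha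
  obtain ⟨z, c', hzE, -, hst', hoff, hmx, hmz, -, -, hxK⟩ := H a (hm₁ x)
  have haε : a ≠ ε := fun h => hε (h ▸ hm₁ x)
  have hagree : ∀ u ∈ S, ∀ v ∈ S, c' s(u, v) = c s(u, v) :=
    fun u hu v hv => hoff _ (hnot x hxS u hu v hv)
  obtain ⟨s, hs, hsK⟩ : ∃ s ∈ S, s ∈ Kc c' a ε z := by
    by_contra hcon
    push Not at hcon
    obtain ⟨c₂, hfull, h2⟩ := hst'.kempe ((hmx a).2 (hm₁ x)) hmz hxK
    refine hNC ⟨c₂, hfull, fun u hu v hv => ?_⟩
    rw [h2, hagree u hu v hv]
    · intro heq
      exact hnot x hxS u hu v hv (by rw [heq]; simp)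
    · intro y hy
      rw [Sym2.mem_iff] at hy
      rcases hy with rfl | rfl
      · exact hcon _ hu
      · exact hcon _ hv
  obtain ⟨w, n, hw0, hwn, hw⟩ := exists_walk hst'.proper hmz hsK
  -- the path with `x` in front
  let W : ℕ → V := fun i => Nat.casesOn i x w
  have hW0 : W 0 = x := rfl
  have hWs : ∀ i, W (i + 1) = w i := fun i => rfl
  have hwK : ∀ i ≤ n, w i ∈ Kc c' a ε z := by
    intro i
    induction i with
    | zero => intro _; rw [hw0]; exact self_mem_Kc _ _ _ _
    | succ i ih =>
      intro hi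
      refine Kc_step (ih (by omega)) ?_
      have := hw i (by omega)
      rcases alt_mem a ε i with h | h
      · left; rw [this, h]
      · right; rw [this, h]
  have hwinj := walk_injective hst'.proper hw (by rw [hw0]; exact hmz)
  have hWinj : ∀ i j, i ≤ n + 1 → j ≤ n + 1 → W i = W j → i = j := by
    have key : ∀ i j, i < j → j ≤ n + 1 → W i ≠ W j := by
      intro i j hij hj
      obtain ⟨j, rfl⟩ : ∃ j', j = j' + 1 := ⟨j - 1, by omega⟩
      rw [hWs]
      cases i with
      | zero =>
        intro h
        exact hxK (by rw [show x = w j from h]; exact hwK j (by omega))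
      | succ i => rw [hWs]; exact hwinj i j (by omega) (by omega)
    intro i j hi hj h
    by_contra hne
    rcases Nat.lt_or_gt_of_ne hne with h' | h'
    · exact key i j h' hj h
    · exact key j i h' hi h.symm
  have hWpath : ∀ i < n, c' s(W (i + 1), W (i + 2)) = some (alt a ε i) := fun i hi => hw i hi
  have hWE : ∀ i ≤ n, s(W i, W (i + 1)) ∈ E := by
    intro i hi
    rw [hst'.mem]
    cases i with
    | zero => right; show s(x, w 0) = s(x, z); rw [hw0]
    | succ i => left; rw [hWpath i (by omega)]; simp
  have hρW : ∀ i ≤ n + 1, ρ x ≤ ρ (W i) + i := by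
    intro i
    induction i with
    | zero => intro _; exact le_rfl
    | succ i ih =>
      intro hi
      have h1 := ih (by omega)
      have h2 := hρ _ _ (hWE i (by omega))
      omega
  have hnD : D ≤ n + 1 := by
    have h1 := hρW (n + 1) le_rfl
    rw [hWs, hwn, hS s hs] at h1
    omega
  have hWS : ∀ i < D, W i ∉ S := by
    intro i hi h
    have h1 := hρW i (by omega)
    rw [hS _ h] at h1
    omega
  have hst0 : St E c' (W 0) (W 1) := by show St E c' x (w 0); rw [hw0]; exact hst'
  have hmiss0 : Miss c' (W 0) a := (hmx a).2 (hm₁ x)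
  have hmiss1 : Miss c' (W 1) ε := by show Miss c' (w 0) ε; rw [hw0]; exact hmz
  choose m₂ hm₂ using exists_miss hN hk hst'.proper (hcE hst')
  choose F hF2 hF using fun (q : V × Fin k × Fin k) =>
    endpoints_finset hst'.proper q.2.1 q.2.2 q.1
  let B : Finset V := (S ×ˢ (Finset.univ : Finset (Fin k × Fin k))).biUnion F
  have hBcard : B.card ≤ 2 * k * k * S.card := by
    refine (Finset.card_biUnion_le_card_mul _ _ 2 (fun q _ => hF2 q)).trans ?_
    rw [Finset.card_product, Finset.card_univ, Fintype.card_prod, Fintype.card_fin]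
    nlinarith
  let T : Finset V := (insert x (insert z B)).biUnion N
  have hTcard : T.card ≤ (2 * k * k * S.card + 2) * k := by
    refine (Finset.card_biUnion_le_card_mul _ _ k (fun q _ => (hk q).le)).trans ?_
    apply Nat.mul_le_mul_right
    have h1 := Finset.card_insert_le x (insert z B)
    have h2 := Finset.card_insert_le z B
    omega
  -- the main claim
  have main : ∀ j, 2 ≤ j → j + 2 ≤ D → W j ∈ T := by
    intro j hj2 hjD
    apply Classical.byContradiction
    intro hjT
    have hT : ∀ v ∈ insert x (insert z B), s(W j, v) ∉ E := by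
      intro v hv hE
      apply hjT
      rw [Finset.mem_biUnion]
      exact ⟨v, hv, hN v _ (by rw [Sym2.eq_swap]; exact hE)⟩
    have hjW0 : W j ≠ W 0 := fun h => by
      have := hWinj j 0 (by omega) (by omega) h; omega
    have hjW1 : W j ≠ W 1 := fun h => by
      have := hWinj j 1 (by omega) (by omega) h; omega
    obtain ⟨d, hd1, hd2, -, hd4, hd5, hd6⟩ :=
      highway hst0 hmiss0 hmiss1 hWpath hWinj j (by omega)
    have hdS : ∀ u ∈ S, ∀ v ∈ S, d s(u, v) = c s(u, v) := by
      intro u hu v hv
      rw [hd5, hagree u hu v hv]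
      intro i hi heq
      exact hnot (W i) (hWS i (by omega)) u hu v hv (by rw [heq]; simp)
    have hWjS : W j ∉ S := hWS j (by omega)
    have hm₂d : ∀ v, s(W j, v) ∈ E → Miss d v (m₂ v) := by
      intro v hv
      refine hd6 v _ ?_ ?_ (hm₂ v)
      · intro h
        exact hT v (by rw [h, hW0]; simp) hv
      · intro h
        have h' : v = z := h.trans hw0
        exact hT v (by rw [h']; simp) hv
    rcases fan hd1.symm m₂ hm₂d (N (W j)) (fun v hv => hN _ v hv) with
      ⟨c₂, hfull, hoff₂⟩ | ⟨ε', hε', H'⟩
    · exact hNC ⟨c₂, hfull, fun u hu v hv => by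
        rw [hoff₂ _ (hnot _ hWjS u hu v hv), hdS u hu v hv]⟩
    -- the generic continuation
    have cont : ∀ a', Miss d (W j) a' →
        (∀ v, W j ∉ Kc d a' ε' v → ∀ p q, p ∈ Kc d a' ε' v → q ∈ Kc d a' ε' v →
          Step d a' ε' p q → Step c' a' ε' p q) → False := by
      intro a' ha' hstep
      obtain ⟨v, c₂, hvE, hmv, hst₂, hoff₂, hmW, hmiss₂, -, hK1, hK2⟩ := H' a' ha'
      by_cases hex : ∃ s ∈ S, s ∈ Kc c₂ a' ε' v
      · obtain ⟨s, hs, hsK₂⟩ := hex
        have h1 : s ∈ Kc d a' ε' v := by
          refine Kc_mono hsK₂ ?_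
          intro p q hp hq hpq
          have : W j ∉ s(p, q) := by
            rw [Sym2.mem_iff]
            rintro (h | h)
            · exact hK2 (h ▸ hp)
            · exact hK2 (h ▸ hq)
          unfold Step at *
          rw [← hoff₂ _ this]; exact hpq
        have h2 : s ∈ Kc c' a' ε' v := Kc_mono h1 (hstep v hK1)
        have h3 : v ∈ F (s, a', ε') :=
          hF (s, a', ε') v (Kc_symm h2) (Or.inr (by rw [← hmv]; exact hm₂ v))
        refine hT v ?_ hvE
        rw [Finset.mem_insert, Finset.mem_insert]
        right; right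
        rw [Finset.mem_biUnion]
        exact ⟨(s, a', ε'), by simp [hs], h3⟩
      · push Not at hex
        obtain ⟨c₃, hfull, h3⟩ := hst₂.kempe ((hmW a').2 ha') hmiss₂ hK2
        refine hNC ⟨c₃, hfull, fun u hu v' hv' => ?_⟩
        rw [h3, hoff₂ _ (hnot _ hWjS u hu v' hv'), hdS u hu v' hv']
        · intro heq
          exact hnot _ hWjS u hu v' hv' (by rw [heq]; simp)
        · intro y hy
          rw [Sym2.mem_iff] at hy
          rcases hy with rfl | rfl
          · exact hex _ hu
          · exact hex _ hv'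
    by_cases hcase : ε' = a ∨ ε' = ε
    · have hne : ε' ≠ alt a ε j := fun h => hε' (h ▸ hd2)
      have heq : ε' = alt a ε (j + 1) := (alt_eq_or hcase j).resolve_left hne
      apply cont (alt a ε j) hd2
      intro v hWK p q hp hq hpq
      have halt : ∀ i, alt a ε i = alt a ε j ∨ alt a ε i = ε' := by
        intro i
        rw [heq]
        exact alt_eq_or (alt_mem a ε i) j
      have hWi : ∀ t i, i + t = j → W i ∉ Kc d (alt a ε j) ε' v := by
        intro t
        induction t with
        | zero => intro i hi; rw [show i = j by omega]; exact hWK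
        | succ t ih =>
          intro i hi hmem
          refine ih (i + 1) (by omega) (Kc_step hmem ?_)
          have := hd4 i (by omega)
          rcases halt i with h | h
          · left; rw [this, h]
          · right; rw [this, h]
      have : d s(p, q) = c' s(p, q) := by
        apply hd5
        intro i hi heq
        have h1 : W i ∈ s(p, q) := by rw [heq]; simp
        rw [Sym2.mem_iff] at h1
        rcases h1 with h1 | h1
        · exact hWi (j - i) i (by omega) (h1 ▸ hp)
        · exact hWi (j - i) i (by omega) (h1 ▸ hq)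
      unfold Step at *
      rw [← this]; exact hpq
    · push Not at hcase
      have hma : m₂ (W j) ≠ a ∧ m₂ (W j) ≠ ε := by
        obtain ⟨i, rfl⟩ : ∃ i, j = i + 2 := ⟨j - 2, by omega⟩
        have h1 : c' s(W (i + 2), W (i + 1)) = some (alt a ε i) := by
          rw [Sym2.eq_swap]; exact hWpath i (by omega)
        have h2 : c' s(W (i + 2), W (i + 3)) = some (alt a ε (i + 1)) := hWpath (i + 1) (by omega)
        have h3 := hm₂ (W (i + 2))
        have h4 : ∀ g, (g = a ∨ g = ε) → m₂ (W (i + 2)) ≠ g := by
          intro g hg heq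
          rw [heq] at h3
          rcases alt_eq_or hg i with h | h
          · rw [h] at h3; exact h3 _ h1
          · rw [h] at h3; exact h3 _ h2
        exact ⟨h4 a (Or.inl rfl), h4 ε (Or.inr rfl)⟩
      apply cont (m₂ (W j)) (hd6 _ _ hjW0 hjW1 (hm₂ _))
      intro v hWK p q hp hq hpq
      have : d s(p, q) = c' s(p, q) := by
        apply hd5
        intro i hi heq
        unfold Step at hpq
        rw [heq] at hpq
        rcases Nat.lt_or_eq_of_le hi with hi | rfl
        · rw [hd4 i hi] at hpq
          rcases alt_mem a ε i with h | h <;> rw [h] at hpq <;> rcases hpq with h' | h'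
          · exact hma.1 (Option.some.inj h').symm
          · exact hcase.1 (Option.some.inj h').symm
          · exact hma.2 (Option.some.inj h').symm
          · exact hcase.2 (Option.some.inj h').symm
        · rw [hd1.symm.none_pq] at hpq
          rcases hpq with h' | h' <;> exact absurd h' (by simp)
      unfold Step at *
      rw [← this]; exact hpq
  -- counting
  have hcount : (Finset.Icc 2 (D - 2)).card ≤ T.card := by
    apply Finset.card_le_card_of_injOn W
    · intro j hj
      rw [Finset.mem_coe, Finset.mem_Icc] at hj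
      exact main j hj.1 (by omega)
    · intro i hi j hj h
      rw [Finset.mem_coe, Finset.mem_Icc] at hi hj
      exact hWinj i j (by omega) (by omega) h
  rw [Nat.card_Icc] at hcount
  have : (2 * k * k * S.card + 2) * k = k * (2 * k * k * S.card + 2) := mul_comm _ _
  omega

end Pool.Agent.Helper561.Kempe
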