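import Pool.Agent.Helper561.Ext

set_option autoImplicit false

namespace Pool.Agent.Helper561.Kempe

/-- The colour of `xy` in the colouring coded by `s`. -/
def col (s x y : ℕ) : ℕ := (Denumerable.ofNat (List ℕ) s).getD (Nat.pair x y) 0

theorem exists_code (f : ℕ → ℕ → ℕ) (M : ℕ) : ∃ s, ∀ x < M, ∀ y < M, col s x y = f x y := by
  refine ⟨Encodable.encode ((List.range (Nat.pair M M)).map
    fun p => f (Nat.unpair p).1 (Nat.unpair p).2), ?_⟩
  intro x hx y hy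
  have hlt : Nat.pair x y < Nat.pair M M :=
    lt_trans (Nat.pair_lt_pair_left y hx) (Nat.pair_lt_pair_right M hy)
  unfold col
  rw [Denumerable.ofNat_encode, List.getD_eq_getElem?_getD, List.getElem?_map,
    List.getElem?_range hlt]
  simp

/-- `s` codes a proper edge colouring of `G` below `M` with colours at most `Δ`. -/
def Good (G : SimpleGraph ℕ) (Δ M s : ℕ) : Prop :=
  ∀ x < M, ∀ y < M, G.Adj x y → col s x y = col s y x ∧ col s x y ≤ Δ ∧
    ∀ z < M, G.Adj x z → y ≠ z → col s x y ≠ col s x z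

open Classical in
theorem Good.toFull {G : SimpleGraph ℕ} {Δ M s : ℕ} (h : Good G Δ M s) :
    ∃ c : Sym2 ℕ → Option (Fin (Δ + 1)), Full (Eset G M) c ∧
      ∀ x y, s(x, y) ∈ Eset G M → ∃ a : Fin (Δ + 1), c s(x, y) = some a ∧ (a : ℕ) = col s x y := by
  let f : ℕ → ℕ → Option (Fin (Δ + 1)) := fun x y =>
    if s(x, y) ∈ Eset G M then some (Fin.ofNat (Δ + 1) (col s x y)) else none
  have hf : ∀ x y, f x y = f y x := by
    intro x y
    simp only [f]
    rw [Sym2.eq_swap (a := y)]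
    by_cases h1 : s(x, y) ∈ Eset G M
    · obtain ⟨h2, h3, h4⟩ := mem_Eset.1 h1
      rw [if_pos h1, if_pos h1, (h x h3 y h4 h2).1]
    · rw [if_neg h1, if_neg h1]
  let c : Sym2 ℕ → Option (Fin (Δ + 1)) := Sym2.lift ⟨f, hf⟩
  have hc : ∀ x y, c s(x, y) = f x y := fun x y => rfl
  have hval : ∀ x y a, c s(x, y) = some a → s(x, y) ∈ Eset G M ∧ (a : ℕ) = col s x y := by
    intro x y a ha
    rw [hc] at ha
    simp only [f] at ha
    by_cases h1 : s(x, y) ∈ Eset G M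
    · rw [if_pos h1] at ha
      refine ⟨h1, ?_⟩
      obtain ⟨h2, h3, h4⟩ := mem_Eset.1 h1
      have h5 := (h x h3 y h4 h2).2.1
      rw [← Option.some.inj ha]
      simp only [Fin.ofNat_eq_cast, Fin.val_natCast]
      exact Nat.mod_eq_of_lt (by omega)
    · rw [if_neg h1] at ha
      exact absurd ha (by simp)
  have hmem : ∀ x y, s(x, y) ∈ Eset G M → c s(x, y) ≠ none := by
    intro x y hxy
    rw [hc]
    simp only [f]
    rw [if_pos hxy]; simp
  refine ⟨c, ⟨⟨?_, ?_⟩, ?_⟩, ?_⟩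
  · intro v
    rw [hc]
    simp only [f]
    rw [if_neg]
    intro hv
    exact (mem_Eset.1 hv).1.ne rfl
  · intro u v w a h1 h2
    obtain ⟨h3, h4⟩ := hval _ _ _ h1
    obtain ⟨h5, h6⟩ := hval _ _ _ h2
    by_contra hne
    obtain ⟨h7, h8, h9⟩ := mem_Eset.1 h3
    obtain ⟨h10, h11, h12⟩ := mem_Eset.1 h5
    exact (h u h8 v h9 h7).2.2 w h12 h10 hne (h4.symm.trans h6)
  · intro e
    induction e with
    | h x y =>
      refine ⟨hmem x y, fun h1 => ?_⟩
      obtain ⟨a, ha⟩ := Option.ne_none_iff_exists'.1 h1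
      exact (hval _ _ _ ha).1
  · intro x y hxy
    obtain ⟨a, ha⟩ := Option.ne_none_iff_exists'.1 (hmem x y hxy)
    exact ⟨a, ha, (hval _ _ _ ha).2⟩

theorem good_of_full {G : SimpleGraph ℕ} {Δ M : ℕ} {c : Sym2 ℕ → Option (Fin (Δ + 1))}
    (hc : Full (Eset G M) c) :
    ∃ s, Good G Δ M s ∧ ∀ x < M, ∀ y < M, ∀ a, c s(x, y) = some a → col s x y = a := by
  obtain ⟨s, hs⟩ := exists_code (fun x y => match c s(x, y) with | none => 0 | some a => (a : ℕ)) M
  have hs' : ∀ x < M, ∀ y < M, ∀ a, c s(x, y) = some a → col s x y = a := by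
    intro x hx y hy a ha
    rw [hs x hx y hy, ha]
  have hmem : ∀ x < M, ∀ y < M, G.Adj x y → ∃ a, c s(x, y) = some a := by
    intro x hx y hy h
    exact Option.ne_none_iff_exists'.1 ((hc.mem _).1 (mem_Eset.2 ⟨h, hx, hy⟩))
  refine ⟨s, ?_, hs'⟩
  intro x hx y hy hxy
  obtain ⟨a, ha⟩ := hmem x hx y hy hxy
  have ha' : c s(y, x) = some a := by rw [Sym2.eq_swap]; exact ha
  refine ⟨by rw [hs' x hx y hy a ha, hs' y hy x hx a ha'], ?_, ?_⟩
  · rw [hs' x hx y hy a ha]; exact Nat.lt_succ_iff.1 a.2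
  · intro z hz hxz hyz heq
    obtain ⟨b, hb⟩ := hmem x hx z hz hxz
    rw [hs' x hx y hy a ha, hs' x hx z hz b hb] at heq
    have : a = b := Fin.ext heq
    subst this
    exact hyz (hc.proper.inj _ _ _ _ ha hb)

theorem extend_code {G : SimpleGraph ℕ} {Δ : ℕ} {N : ℕ → Finset ℕ}
    (hN : ∀ v w, G.Adj v w → w ∈ N v) (hk : ∀ v, (N v).card < Δ + 1)
    {g : ℕ → ℕ} (hg : ∀ m, m < g m) (hadj : ∀ m x y, x < m → G.Adj x y → y < g m)
    {b M M' s : ℕ} (hbM : g^[farness (Δ + 1) b] b ≤ M) (hM : M ≤ M') (hs : Good G Δ M s) :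
    ∃ s', Good G Δ M' s' ∧ ∀ x < b, ∀ y < b, G.Adj x y → col s' x y = col s x y := by
  obtain ⟨c, hc, hcs⟩ := hs.toFull
  obtain ⟨c', hc', hag⟩ := extend hN hk hg hadj hbM hM hc
  obtain ⟨s', hs', hcs'⟩ := good_of_full hc'
  refine ⟨s', hs', ?_⟩
  intro x hx y hy hxy
  have hbM0 : b ≤ M := by
    refine le_trans ?_ hbM
    have : ∀ t, b ≤ g^[t] b := by
      intro t
      induction t with
      | zero => exact le_rfl
      | succ t ih => rw [Function.iterate_succ_apply']; exact ih.trans (hg _).le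
    exact this _
  obtain ⟨a, ha, ha'⟩ := hcs x y (mem_Eset.2 ⟨hxy, by omega, by omega⟩)
  rw [← hag x hx y hy] at ha
  rw [hcs' x (by omega) y (by omega) a ha, ha']

theorem exists_good {G : SimpleGraph ℕ} {Δ : ℕ} {N : ℕ → Finset ℕ}
    (hN : ∀ v w, G.Adj v w → w ∈ N v) (hk : ∀ v, (N v).card < Δ + 1) (M : ℕ) :
    ∃ s, Good G Δ M s := by
  obtain ⟨c, hc⟩ := vizing hN hk M
  obtain ⟨s, hs, -⟩ := good_of_full hc
  exact ⟨s, hs⟩

end Pool.Agent.Helper561.Kempe
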