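import Pool.Agent.Helper561.Code

set_option autoImplicit false

namespace Pool.Agent.Helper561.Kempe

/-- Bounded universal quantifier as a Boolean function. -/
def ball (M : ℕ) (p : ℕ → Bool) : Bool := Nat.rec true (fun i r => r && p i) M

theorem ball_iff (M : ℕ) (p : ℕ → Bool) : ball M p = true ↔ ∀ i < M, p i = true := by
  induction M with
  | zero => simp [ball]
  | succ M ih =>
    have : ball (M + 1) p = (ball M p && p M) := rfl
    rw [this, Bool.and_eq_true, ih]
    constructor
    · rintro ⟨h1, h2⟩ i hi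
      rcases Nat.lt_succ_iff_lt_or_eq.1 hi with h | rfl
      · exact h1 i h
      · exact h2
    · intro h
      exact ⟨fun i hi => h i (by omega), h M (by omega)⟩

theorem computable_ball {α : Type*} [Primcodable α] {f : α → ℕ} {p : α → ℕ → Bool}
    (hf : Computable f) (hp : Computable₂ p) : Computable fun a => ball (f a) (p a) := by
  unfold ball
  refine Computable.nat_rec (h := fun a q => q.2 && p a q.1) hf (Computable.const true) ?_
  have h1 : Computable fun q : α × (ℕ × Bool) => q.2.2 := Computable.snd.comp Computable.snd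
  have h2 : Computable fun q : α × (ℕ × Bool) => p q.1 q.2.1 :=
    hp.comp Computable.fst (Computable.fst.comp Computable.snd)
  exact (Primrec.and.to_comp.comp h1 h2).to₂

/-- A strict upper bound for the neighbours of numbers below `m`. -/
def bnd (nbrs : ℕ → List ℕ) (m : ℕ) : ℕ :=
  Nat.rec 1 (fun i r => r + 1 + (nbrs i).foldr (fun u v => u + v) 0) m

theorem bnd_succ (nbrs : ℕ → List ℕ) (m : ℕ) :
    bnd nbrs (m + 1) = bnd nbrs m + 1 + (nbrs m).foldr (fun u v => u + v) 0 := rfl

theorem le_foldr (l : List ℕ) (y : ℕ) (h : y ∈ l) : y ≤ l.foldr (fun u v => u + v) 0 := by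
  induction l with
  | nil => simp at h
  | cons a l ih =>
    rw [List.foldr_cons]
    rcases List.mem_cons.1 h with rfl | h
    · omega
    · have := ih h; omega

theorem lt_bnd (nbrs : ℕ → List ℕ) (m : ℕ) : m < bnd nbrs m := by
  induction m with
  | zero => exact Nat.zero_lt_one
  | succ m ih => rw [bnd_succ]; omega

theorem bnd_adj (nbrs : ℕ → List ℕ) (m x y : ℕ) (hx : x < m) (hy : y ∈ nbrs x) :
    y < bnd nbrs m := by
  induction m with
  | zero => omega
  | succ m ih =>
    rw [bnd_succ]
    rcases Nat.lt_succ_iff_lt_or_eq.1 hx with h | rfl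
    · have := ih h; omega
    · have := le_foldr _ _ hy
      have := lt_bnd nbrs x
      omega

theorem computable_bnd {nbrs : ℕ → List ℕ} (h : Computable nbrs) : Computable (bnd nbrs) := by
  unfold bnd
  refine Computable.nat_rec (f := fun m : ℕ => m) (g := fun _ => 1)
    (h := fun _ q => q.2 + 1 + (nbrs q.1).foldr (fun u v => u + v) 0)
    Computable.id (Computable.const 1) ?_
  have h0 : Primrec fun l : List ℕ => l.foldr (fun u v => u + v) 0 := by
    refine Primrec.list_foldr (h := fun _ p => p.1 + p.2) Primrec.id (Primrec.const 0) ?_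
    exact (Primrec.nat_add.comp (Primrec.fst.comp Primrec.snd)
      (Primrec.snd.comp Primrec.snd)).to₂
  have h1 : Computable fun q : ℕ × (ℕ × ℕ) => (nbrs q.2.1).foldr (fun u v => u + v) 0 :=
    h0.to_comp.comp (h.comp (Computable.fst.comp Computable.snd))
  have h2 : Computable fun q : ℕ × (ℕ × ℕ) => q.2.2 + 1 :=
    Computable.succ.comp (Computable.snd.comp Computable.snd)
  exact (Primrec.nat_add.to_comp.comp h2 h1).to₂

/-- Iteration written as a recursion. -/
def iter (g : ℕ → ℕ) (t r : ℕ) : ℕ := Nat.rec r (fun _ y => g y) t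

theorem iter_eq (g : ℕ → ℕ) (t r : ℕ) : iter g t r = g^[t] r := by
  induction t with
  | zero => rfl
  | succ t ih => rw [Function.iterate_succ_apply', ← ih]; rfl

theorem computable_iter {g : ℕ → ℕ} (hg : Computable g) : Computable₂ (iter g) := by
  unfold iter
  have : Computable fun p : ℕ × ℕ =>
      (Nat.rec p.2 (fun _ y => g y) p.1 : ℕ) := by
    refine Computable.nat_rec (h := fun (_ : ℕ × ℕ) (q : ℕ × ℕ) => g q.2)
      Computable.fst Computable.snd ?_
    exact (hg.comp (Computable.snd.comp Computable.snd)).to₂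
  exact this.to₂

/-- The stages. -/
def stage (nbrs : ℕ → List ℕ) (k n : ℕ) : ℕ :=
  Nat.rec 0 (fun _ r => iter (bnd nbrs) (farness k r) r) n

theorem stage_succ (nbrs : ℕ → List ℕ) (k n : ℕ) :
    stage nbrs k (n + 1) = (bnd nbrs)^[farness k (stage nbrs k n)] (stage nbrs k n) := by
  rw [← iter_eq]; rfl

theorem computable_stage {nbrs : ℕ → List ℕ} (h : Computable nbrs) (k : ℕ) :
    Computable (stage nbrs k) := by
  unfold stage
  refine Computable.nat_rec (f := fun n : ℕ => n) (g := fun _ => 0)
    (h := fun _ q => iter (bnd nbrs) (farness k q.2) q.2) Computable.id (Computable.const 0) ?_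
  have h1 : Computable fun q : ℕ × (ℕ × ℕ) => q.2.2 := Computable.snd.comp Computable.snd
  have h2 : Primrec fun r : ℕ => farness k r := by
    unfold farness
    exact Primrec.nat_add.comp (Primrec.nat_mul.comp (Primrec.const k)
      (Primrec.nat_add.comp (Primrec.nat_mul.comp (Primrec.const (2 * k * k)) Primrec.id)
        (Primrec.const 2))) (Primrec.const 6)
  exact ((computable_iter (computable_bnd h)).comp (h2.to_comp.comp h1) h1).to₂

theorem primrec_col : Primrec fun q : ℕ × (ℕ × ℕ) => col q.1 q.2.1 q.2.2 := by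
  unfold col
  exact (Primrec.list_getD 0).comp ((Primrec.ofNat (List ℕ)).comp Primrec.fst)
    (Primrec₂.natPair.comp (Primrec.fst.comp Primrec.snd) (Primrec.snd.comp Primrec.snd))

/-- Boolean adjacency. -/
def adjB (nbrs : ℕ → List ℕ) (x y : ℕ) : Bool := decide (List.idxOf y (nbrs x) < (nbrs x).length)

theorem adjB_iff (nbrs : ℕ → List ℕ) (x y : ℕ) : adjB nbrs x y = true ↔ y ∈ nbrs x := by
  unfold adjB
  rw [decide_eq_true_iff, List.idxOf_lt_length_iff]

theorem computable_adjB {nbrs : ℕ → List ℕ} (h : Computable nbrs) :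
    Computable fun q : ℕ × ℕ => adjB nbrs q.1 q.2 := by
  unfold adjB
  have h1 : Computable fun q : ℕ × ℕ => nbrs q.1 := h.comp Computable.fst
  have h2 : Computable fun q : ℕ × ℕ => List.idxOf q.2 (nbrs q.1) :=
    Primrec.list_idxOf.to_comp.comp Computable.snd h1
  exact Primrec.nat_lt.decide.to_comp.comp h2 (Computable.list_length.comp h1)

theorem c_eq {α : Type*} [Primcodable α] {f g : α → ℕ} (hf : Computable f) (hg : Computable g) :
    Computable fun a => decide (f a = g a) := by
  have h : Computable fun p : ℕ × ℕ => decide (p.1 = p.2) :=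
    (Primrec.eq (α := ℕ)).decide.to_comp
  exact h.comp (hf.pair hg)

theorem c_lt {α : Type*} [Primcodable α] {f g : α → ℕ} (hf : Computable f) (hg : Computable g) :
    Computable fun a => decide (f a < g a) := by
  have h : Computable fun p : ℕ × ℕ => decide (p.1 < p.2) := Primrec.nat_lt.decide.to_comp
  exact h.comp (hf.pair hg)

theorem c_le {α : Type*} [Primcodable α] {f g : α → ℕ} (hf : Computable f) (hg : Computable g) :
    Computable fun a => decide (f a ≤ g a) := by
  have h : Computable fun p : ℕ × ℕ => decide (p.1 ≤ p.2) := Primrec.nat_le.decide.to_comp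
  exact h.comp (hf.pair hg)

theorem c_not {α : Type*} [Primcodable α] {f : α → Bool} (hf : Computable f) :
    Computable fun a => !f a := by
  have h : Computable Bool.not := Primrec.not.to_comp
  exact h.comp hf

theorem c_and {α : Type*} [Primcodable α] {f g : α → Bool} (hf : Computable f)
    (hg : Computable g) : Computable fun a => f a && g a := by
  have h : Computable fun p : Bool × Bool => p.1 && p.2 := Primrec.and.to_comp
  exact h.comp (hf.pair hg)

theorem c_or {α : Type*} [Primcodable α] {f g : α → Bool} (hf : Computable f)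
    (hg : Computable g) : Computable fun a => f a || g a := by
  have h : Computable fun p : Bool × Bool => p.1 || p.2 := Primrec.or.to_comp
  exact h.comp (hf.pair hg)

theorem c_ball {α : Type*} [Primcodable α] {f : α → ℕ} {p : α → ℕ → Bool}
    (hf : Computable f) (hp : Computable fun q : α × ℕ => p q.1 q.2) :
    Computable fun a => ball (f a) (p a) := computable_ball hf hp

/-- The innermost part of the test. -/
def inner (adj : ℕ → ℕ → Bool) (cl : ℕ → ℕ → ℕ → ℕ) (t x y z : ℕ) : Bool :=
  !adj x z || (decide (y = z) || !decide (cl t x y = cl t x z))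

/-- The body of the test. -/
def body (M P : ℕ → ℕ) (adj : ℕ → ℕ → Bool) (cl : ℕ → ℕ → ℕ → ℕ) (Δ n s t x y : ℕ) : Bool :=
  !adj x y ||
    (decide (cl t x y = cl t y x) && (decide (cl t x y ≤ Δ) &&
      (ball (M n) (fun z => inner adj cl t x y z) &&
      (!decide (x < P n) || (!decide (y < P n) || decide (cl t x y = cl s x y))))))

/-- The Boolean test behind the search, in general form. -/
def checkG (M P : ℕ → ℕ) (adj : ℕ → ℕ → Bool) (cl : ℕ → ℕ → ℕ → ℕ) (Δ n s t : ℕ) : Bool :=
  ball (M n) fun x => ball (M n) fun y => body M P adj cl Δ n s t x y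

theorem computable_inner {α : Type*} [Primcodable α] {adj : ℕ → ℕ → Bool}
    {cl : ℕ → ℕ → ℕ → ℕ} (hadj : Computable fun q : ℕ × ℕ => adj q.1 q.2)
    (hcol : Computable fun q : ℕ × (ℕ × ℕ) => cl q.1 q.2.1 q.2.2) {t x y z : α → ℕ}
    (ht : Computable t) (hx : Computable x) (hy : Computable y) (hz : Computable z) :
    Computable fun a => inner adj cl (t a) (x a) (y a) (z a) := by
  unfold inner
  have h1 : Computable fun a => adj (x a) (z a) := hadj.comp (hx.pair hz)
  have h2 : Computable fun a => cl (t a) (x a) (y a) := hcol.comp (ht.pair (hx.pair hy))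
  have h3 : Computable fun a => cl (t a) (x a) (z a) := hcol.comp (ht.pair (hx.pair hz))
  exact c_or (c_not h1) (c_or (c_eq hy hz) (c_not (c_eq h2 h3)))

theorem computable_body {α : Type*} [Primcodable α] {M P : ℕ → ℕ} {adj : ℕ → ℕ → Bool}
    {cl : ℕ → ℕ → ℕ → ℕ} (Δ : ℕ)
    (hM : Computable M) (hP : Computable P) (hadj : Computable fun q : ℕ × ℕ => adj q.1 q.2)
    (hcol : Computable fun q : ℕ × (ℕ × ℕ) => cl q.1 q.2.1 q.2.2) {n s t x y : α → ℕ}
    (hn : Computable n) (hs : Computable s) (ht : Computable t) (hx : Computable x)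
    (hy : Computable y) :
    Computable fun a => body M P adj cl Δ (n a) (s a) (t a) (x a) (y a) := by
  unfold body
  have h1 : Computable fun a => adj (x a) (y a) := hadj.comp (hx.pair hy)
  have h2 : Computable fun a => cl (t a) (x a) (y a) := hcol.comp (ht.pair (hx.pair hy))
  have h3 : Computable fun a => cl (t a) (y a) (x a) := hcol.comp (ht.pair (hy.pair hx))
  have h4 : Computable fun a => cl (s a) (x a) (y a) := hcol.comp (hs.pair (hx.pair hy))
  have h5 : Computable fun a => M (n a) := hM.comp hn
  have h6 : Computable fun a => P (n a) := hP.comp hn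
  have h7 : Computable fun a => ball (M (n a)) (fun z => inner adj cl (t a) (x a) (y a) z) := by
    refine c_ball h5 ?_
    exact computable_inner hadj hcol (ht.comp Computable.fst) (hx.comp Computable.fst)
      (hy.comp Computable.fst) Computable.snd
  exact c_or (c_not h1) (c_and (c_eq h2 h3) (c_and (c_le h2 (Computable.const Δ))
    (c_and h7 (c_or (c_not (c_lt hx h6)) (c_or (c_not (c_lt hy h6)) (c_eq h2 h4))))))

theorem computable_checkG {M P : ℕ → ℕ} {adj : ℕ → ℕ → Bool} {cl : ℕ → ℕ → ℕ → ℕ} (Δ : ℕ)
    (hM : Computable M) (hP : Computable P) (hadj : Computable fun q : ℕ × ℕ => adj q.1 q.2)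
    (hcol : Computable fun q : ℕ × (ℕ × ℕ) => cl q.1 q.2.1 q.2.2) :
    Computable fun q : (ℕ × ℕ) × ℕ => checkG M P adj cl Δ q.1.1 q.1.2 q.2 := by
  unfold checkG
  have hn : Computable fun q : (ℕ × ℕ) × ℕ => q.1.1 := Computable.fst.comp Computable.fst
  have hs : Computable fun q : (ℕ × ℕ) × ℕ => q.1.2 := Computable.snd.comp Computable.fst
  have ht : Computable fun q : (ℕ × ℕ) × ℕ => q.2 := Computable.snd
  refine c_ball (hM.comp hn) ?_
  have hn' := hn.comp (Computable.fst (α := (ℕ × ℕ) × ℕ) (β := ℕ))
  have hs' := hs.comp (Computable.fst (α := (ℕ × ℕ) × ℕ) (β := ℕ))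
  have ht' := ht.comp (Computable.fst (α := (ℕ × ℕ) × ℕ) (β := ℕ))
  refine c_ball (hM.comp hn') ?_
  exact computable_body Δ hM hP hadj hcol (hn'.comp Computable.fst) (hs'.comp Computable.fst)
    (ht'.comp Computable.fst) (Computable.snd.comp Computable.fst) Computable.snd

/-- The Boolean test behind the search. -/
def checkB (nbrs : ℕ → List ℕ) (Δ n s t : ℕ) : Bool :=
  checkG (fun n => stage nbrs (Δ + 1) (n + 1)) (fun n => stage nbrs (Δ + 1) (n - 1))
    (adjB nbrs) col Δ n s t

theorem checkB_iff {G : SimpleGraph ℕ} {nbrs : ℕ → List ℕ}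
    (hG : ∀ x y : ℕ, G.Adj x y ↔ y ∈ nbrs x) (Δ n s t : ℕ) :
    checkB nbrs Δ n s t = true ↔ Good G Δ (stage nbrs (Δ + 1) (n + 1)) t ∧
      ∀ x < stage nbrs (Δ + 1) (n + 1), ∀ y < stage nbrs (Δ + 1) (n + 1), G.Adj x y →
        x < stage nbrs (Δ + 1) (n - 1) → y < stage nbrs (Δ + 1) (n - 1) →
          col t x y = col s x y := by
  unfold checkB checkG body inner Good
  have hA : ∀ x y, (!adjB nbrs x y) = true ↔ ¬ G.Adj x y := by
    intro x y
    rw [Bool.not_eq_true', ← Bool.not_eq_true, adjB_iff, hG]
  simp only [ball_iff, Bool.or_eq_true, Bool.and_eq_true, decide_eq_true_iff, hA,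
    Bool.not_eq_true', decide_eq_false_iff_not]
  constructor
  · intro h
    refine ⟨fun x hx y hy hxy => ?_, fun x hx y hy hxy h1 h2 => ?_⟩
    · obtain ⟨h1, h2, h3, -⟩ := (h x hx y hy).resolve_left (not_not.2 hxy)
      refine ⟨h1, h2, fun z hz hxz hyz => ?_⟩
      exact ((h3 z hz).resolve_left (not_not.2 hxz)).resolve_left hyz
    · obtain ⟨-, -, -, h3⟩ := (h x hx y hy).resolve_left (not_not.2 hxy)
      exact (h3.resolve_left (not_not.2 h1)).resolve_left (not_not.2 h2)
  · rintro ⟨h, h'⟩ x hx y hy
    by_cases hxy : G.Adj x y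
    · right
      obtain ⟨h1, h2, h3⟩ := h x hx y hy hxy
      refine ⟨h1, h2, fun z hz => ?_, ?_⟩
      · by_cases hxz : G.Adj x z
        · right
          by_cases hyz : y = z
          · exact Or.inl hyz
          · exact Or.inr (h3 z hz hxz hyz)
        · exact Or.inl hxz
      · by_cases h4 : x < stage nbrs (Δ + 1) (n - 1)
        · right
          by_cases h5 : y < stage nbrs (Δ + 1) (n - 1)
          · exact Or.inr (h' x hx y hy hxy h4 h5)
          · exact Or.inl h5
        · exact Or.inl h4
    · exact Or.inl hxy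

theorem computable_checkB {nbrs : ℕ → List ℕ} (h : Computable nbrs) (Δ : ℕ) :
    Computable fun q : (ℕ × ℕ) × ℕ => checkB nbrs Δ q.1.1 q.1.2 q.2 :=
  computable_checkG Δ ((computable_stage h (Δ + 1)).comp Computable.succ)
    ((computable_stage h (Δ + 1)).comp Computable.pred) (computable_adjB h) primrec_col.to_comp

/-- The least code passing the test. -/
def search (chk : ℕ → ℕ → ℕ → Bool) (n s : ℕ) : Part ℕ :=
  Nat.rfind fun t => Part.some (chk n s t)

theorem partrec_search {chk : ℕ → ℕ → ℕ → Bool}
    (h : Computable fun q : (ℕ × ℕ) × ℕ => chk q.1.1 q.1.2 q.2) :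
    Partrec fun q : ℕ × ℕ => search chk q.1 q.2 := by
  unfold search
  refine Partrec.rfind (p := fun (q : ℕ × ℕ) (t : ℕ) => Part.some (chk q.1 q.2 t)) ?_
  exact h.partrec

/-- The sequence of codes. -/
def seq (chk : ℕ → ℕ → ℕ → Bool) (n : ℕ) : Part ℕ :=
  Nat.rec (search chk 0 0) (fun m IH => IH.bind fun s => search chk (m + 1) s) n

theorem partrec_seq {chk : ℕ → ℕ → ℕ → Bool}
    (h : Computable fun q : (ℕ × ℕ) × ℕ => chk q.1.1 q.1.2 q.2) :
    Partrec fun n => seq chk n := by
  unfold seq
  have h0 : Partrec fun _ : ℕ => search chk 0 0 :=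
    (partrec_search h).comp (Computable.const (0, 0))
  have h1 : Computable fun q : ℕ × (ℕ × ℕ) => (q.2.1 + 1, q.2.2) :=
    (Computable.succ.comp (Computable.fst.comp Computable.snd)).pair
      (Computable.snd.comp Computable.snd)
  have h2 : Partrec fun q : ℕ × (ℕ × ℕ) => search chk (q.2.1 + 1) q.2.2 :=
    (partrec_search h).comp h1
  exact Partrec.nat_rec (f := fun n : ℕ => n) (g := fun _ => search chk 0 0)
    (h := fun _ q => search chk (q.1 + 1) q.2) Computable.id h0 h2.to₂

end Pool.Agent.Helper561.Kempe
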