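import Pool.Agent.Helper561.Avoid

set_option autoImplicit false

namespace Pool.Agent.Helper561.Kempe

/-- The edges of `G` inside the initial segment below `M`. -/
def Eset (G : SimpleGraph ℕ) (M : ℕ) : Set (Sym2 ℕ) := {e | e ∈ G.edgeSet ∧ ∀ v ∈ e, v < M}

theorem mem_Eset {G : SimpleGraph ℕ} {M x y : ℕ} :
    s(x, y) ∈ Eset G M ↔ G.Adj x y ∧ x < M ∧ y < M := by
  unfold Eset
  constructor
  · rintro ⟨h1, h2⟩
    exact ⟨h1, h2 x (by simp), h2 y (by simp)⟩
  · rintro ⟨h1, h2, h3⟩
    refine ⟨h1, fun v hv => ?_⟩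
    rw [Sym2.mem_iff] at hv
    rcases hv with rfl | rfl
    · exact h2
    · exact h3

theorem Eset_finite (G : SimpleGraph ℕ) (M : ℕ) : (Eset G M).Finite := by
  apply Set.Finite.subset
    (((Finset.range M ×ˢ Finset.range M).image fun p => s(p.1, p.2)).finite_toSet)
  intro e he
  induction e with
  | h x y =>
    obtain ⟨-, h2, h3⟩ := mem_Eset.1 he
    simp only [Finset.coe_image, Set.mem_image, Finset.mem_coe, Finset.mem_product,
      Finset.mem_range]
    exact ⟨(x, y), ⟨h2, h3⟩, rfl⟩

/-- Extending a colouring, keeping the colours inside `S`. -/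
theorem extend_gen {G : SimpleGraph ℕ} {k : ℕ} {N : ℕ → Finset ℕ}
    (hN : ∀ v w, G.Adj v w → w ∈ N v) (hk : ∀ v, (N v).card < k)
    (S : Finset ℕ) (ρ : ℕ → ℕ) (hρ : ∀ u v, G.Adj u v → ρ u ≤ ρ v + 1)
    (hS : ∀ v ∈ S, ρ v = 0) {M M' : ℕ} (hM : M ≤ M')
    (hfar : ∀ x, M ≤ x → k * (2 * k * k * S.card + 2) + 6 ≤ ρ x)
    {c : Sym2 ℕ → Option (Fin k)} (hc : Full (Eset G M) c) :
    ∃ c', Full (Eset G M') c' ∧ ∀ u ∈ S, ∀ v ∈ S, c' s(u, v) = c s(u, v) := by
  classical
  have main : ∀ F : Finset (Sym2 ℕ), (∀ e ∈ F, e ∈ Eset G M') →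
      ∃ c', Full (Eset G M ∪ F) c' ∧ ∀ u ∈ S, ∀ v ∈ S, c' s(u, v) = c s(u, v) := by
    intro F
    induction F using Finset.induction with
    | empty => intro _; exact ⟨c, by simpa using hc, fun _ _ _ _ => rfl⟩
    | insert e F heF ih =>
      intro hF
      obtain ⟨c₁, hc₁, hag⟩ := ih (fun e' he' => hF e' (Finset.mem_insert_of_mem he'))
      by_cases he : e ∈ Eset G M
      · refine ⟨c₁, ?_, hag⟩
        have : Eset G M ∪ ((insert e F : Finset (Sym2 ℕ)) : Set (Sym2 ℕ)) = Eset G M ∪ F := by
          ext e'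
          simp only [Finset.coe_insert, Set.mem_union, Set.mem_insert_iff, Finset.mem_coe]
          constructor
          · rintro (h | rfl | h)
            · exact Or.inl h
            · exact Or.inl he
            · exact Or.inr h
          · rintro (h | h)
            · exact Or.inl h
            · exact Or.inr (Or.inr h)
        rw [this]; exact hc₁
      · have heM' := hF e (Finset.mem_insert_self _ _)
        obtain ⟨x, y, hexy, hx⟩ : ∃ x y, e = s(x, y) ∧ M ≤ x := by
          induction e with
          | h x y =>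
            obtain ⟨h1, h2, h3⟩ := mem_Eset.1 heM'
            by_cases hxM : M ≤ x
            · exact ⟨x, y, rfl, hxM⟩
            · refine ⟨y, x, Sym2.eq_swap, ?_⟩
              by_contra hyM
              exact he (mem_Eset.2 ⟨h1, by omega, by omega⟩)
        subst hexy
        have hadj := (mem_Eset.1 heM').1
        have hsub : ∀ v w, s(v, w) ∈ Eset G M ∪ ((insert s(x, y) F : Finset (Sym2 ℕ)) :
            Set (Sym2 ℕ)) → G.Adj v w := by
          intro v w h
          rcases h with h | h
          · exact (mem_Eset.1 h).1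
          · exact (mem_Eset.1 (hF _ h)).1
        have hst : St (Eset G M ∪ ((insert s(x, y) F : Finset (Sym2 ℕ)) : Set (Sym2 ℕ)))
            c₁ x y := by
          refine ⟨hc₁.proper, ?_, hadj.ne, ?_⟩
          · by_contra h
            have := (hc₁.mem _).2 h
            rcases this with h' | h'
            · exact he h'
            · exact heF h'
          · intro e'
            rw [← hc₁.mem e']
            simp only [Finset.coe_insert, Set.mem_union, Set.mem_insert_iff, Finset.mem_coe]
            tauto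
        obtain ⟨c₂, hc₂, hag₂⟩ := avoid (fun v w h => hN v w (hsub v w h)) hk S ρ
          (fun u v h => hρ u v (hsub u v h)) hS hst (hfar x hx)
        exact ⟨c₂, hc₂, fun u hu v hv => by rw [hag₂ u hu v hv, hag u hu v hv]⟩
  obtain ⟨c', hc', hag⟩ := main (Eset_finite G M').toFinset (fun e he => by simpa using he)
  refine ⟨c', ?_, hag⟩
  have : Eset G M ∪ ((Eset_finite G M').toFinset : Set (Sym2 ℕ)) = Eset G M' := by
    ext e
    simp only [Set.Finite.coe_toFinset, Set.mem_union, or_iff_right_iff_imp]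
    rintro ⟨h1, h2⟩
    exact ⟨h1, fun v hv => lt_of_lt_of_le (h2 v hv) hM⟩
  rw [← this]; exact hc'

/-- The required distance. -/
def farness (k b : ℕ) : ℕ := k * (2 * k * k * b + 2) + 6

theorem extend {G : SimpleGraph ℕ} {k : ℕ} {N : ℕ → Finset ℕ}
    (hN : ∀ v w, G.Adj v w → w ∈ N v) (hk : ∀ v, (N v).card < k)
    {g : ℕ → ℕ} (hg : ∀ m, m < g m) (hadj : ∀ m x y, x < m → G.Adj x y → y < g m)
    {b M M' : ℕ} (hbM : g^[farness k b] b ≤ M) (hM : M ≤ M')
    {c : Sym2 ℕ → Option (Fin k)} (hc : Full (Eset G M) c) :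
    ∃ c', Full (Eset G M') c' ∧ ∀ u < b, ∀ v < b, c' s(u, v) = c s(u, v) := by
  classical
  have hiter : ∀ t, b + t ≤ g^[t] b := by
    intro t
    induction t with
    | zero => exact le_rfl
    | succ t ih =>
      rw [Function.iterate_succ_apply']
      have := hg (g^[t] b)
      omega
  have hmono : ∀ s t, s ≤ t → g^[s] b ≤ g^[t] b := by
    intro s t hst
    induction t with
    | zero =>
      obtain rfl : s = 0 := by omega
      exact le_rfl
    | succ t ih =>
      rcases Nat.lt_or_eq_of_le hst with h | rfl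
      · have h1 := ih (by omega)
        rw [Function.iterate_succ_apply']
        exact h1.trans (hg _).le
      · exact le_rfl
  have hex : ∀ v, ∃ t, v < g^[t] b := fun v => ⟨v + 1, by have := hiter (v + 1); omega⟩
  obtain ⟨c', h1, h2⟩ := extend_gen hN hk (Finset.range b) (fun v => Nat.find (hex v)) (by
    intro u v huv
    apply Nat.find_min'
    rw [Function.iterate_succ_apply']
    exact hadj _ v u (Nat.find_spec (hex v)) huv.symm) (by
    intro v hv
    rw [Nat.find_eq_zero]
    exact Finset.mem_range.1 hv) hM (by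
    intro x hx
    rw [Finset.card_range]
    by_contra hlt
    push Not at hlt
    have h3 := Nat.find_spec (hex x)
    have h4 := hmono _ (farness k b) hlt.le
    omega) hc
  exact ⟨c', h1, fun u hu v hv => h2 u (Finset.mem_range.2 hu) v (Finset.mem_range.2 hv)⟩

theorem vizing {G : SimpleGraph ℕ} {k : ℕ} {N : ℕ → Finset ℕ}
    (hN : ∀ v w, G.Adj v w → w ∈ N v) (hk : ∀ v, (N v).card < k) (M : ℕ) :
    ∃ c : Sym2 ℕ → Option (Fin k), Full (Eset G M) c := by
  obtain ⟨c, hc, -⟩ := extend_gen hN hk ∅ (fun _ => k * (2 * k * k * 0 + 2) + 6)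
    (fun _ _ _ => Nat.le_succ _) (by simp) (Nat.zero_le M) (fun x _ => by simp)
    (c := fun _ => none) ⟨⟨fun _ => rfl, fun u v w a h => absurd h (by simp)⟩, by
      intro e
      constructor
      · rintro ⟨-, h⟩
        induction e with
        | h x y => exact absurd (h x (by simp)) (Nat.not_lt_zero _)
      · intro h; exact absurd rfl h⟩
  exact ⟨c, hc⟩

end Pool.Agent.Helper561.Kempe
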