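import Pool.Agent.Helper561.Kempe2

set_option autoImplicit false

namespace Pool.Agent.Helper561.Kempe

variable {V : Type*} {κ : Type*}

theorem fan_shift {E : Set (Sym2 V)} {c : Sym2 V → Option κ} {x : V} (z : ℕ → V) (m : V → κ)
    (hst : St E c x (z 0)) (t : ℕ)
    (hdist : ∀ i j, i < j → j ≤ t → z i ≠ z j)
    (hz : ∀ i < t, c s(x, z (i + 1)) = some (m (z i)))
    (hm : ∀ i ≤ t, Miss c (z i) (m (z i))) :
    ∃ c', St E c' x (z t) ∧ (∀ e, x ∉ e → c' e = c e) ∧ (∀ b, Miss c' x b ↔ Miss c x b) ∧
      (∀ v b, (∀ i < t, v ≠ z i) → Miss c v b → Miss c' v b) ∧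
      (∀ i < t, c' s(x, z i) = some (m (z i))) ∧
      (∀ y, (∀ i ≤ t, y ≠ z i) → c' s(x, y) = c s(x, y)) := by
  induction t with
  | zero =>
    exact ⟨c, hst, fun _ _ => rfl, fun _ => Iff.rfl, fun _ _ _ h => h,
      fun i hi => absurd hi (Nat.not_lt_zero i), fun _ _ => rfl⟩
  | succ t ih =>
    obtain ⟨c', h1, h2, h3, h4, h5, h6⟩ := ih (fun i j hij hj => hdist i j hij (by omega))
      (fun i hi => hz i (by omega)) (fun i hi => hm i (by omega))
    have hr : c' s(x, z (t + 1)) = some (m (z t)) := by
      rw [h6 _ (fun i hi => (hdist i (t + 1) (by omega) le_rfl).symm)]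
      exact hz t (Nat.lt_succ_self t)
    have hq : Miss c' (z t) (m (z t)) :=
      h4 _ _ (fun i hi => (hdist i t hi (by omega)).symm) (hm t (by omega))
    have hzx : z t ≠ x := h1.ne.symm
    have hqr : z t ≠ z (t + 1) := hdist t (t + 1) (by omega) le_rfl
    refine ⟨shift c' x (z t) (z (t + 1)) (m (z t)), h1.shift hr hq, ?_, ?_, ?_, ?_, ?_⟩
    · intro e he
      rw [shift_of_ne, h2 e he]
      · rintro rfl; exact he (by simp)
      · rintro rfl; exact he (by simp)
    · intro b
      rw [shift_miss_p_iff h1 hr, h3]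
    · intro v b hv hb
      exact shift_miss h1 hr (hv t (Nat.lt_succ_self t)) (h4 v b (fun i hi => hv i (by omega)) hb)
    · intro i hi
      rcases Nat.lt_succ_iff_lt_or_eq.1 hi with hi | rfl
      · rw [shift_of_ne, h5 i hi]
        · intro heq
          rw [Sym2.eq_iff] at heq
          rcases heq with ⟨_, h⟩ | ⟨h, _⟩
          · exact hdist i t hi (by omega) h
          · exact hzx h.symm
        · intro heq
          rw [Sym2.eq_iff] at heq
          rcases heq with ⟨_, h⟩ | ⟨h, h'⟩
          · exact hdist i (t + 1) (by omega) le_rfl h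
          · exact hdist i (t + 1) (by omega) le_rfl (h' ▸ h ▸ rfl)
      · exact shift_pq _ _ _ _ _
    · intro y hy
      rw [shift_of_ne, h6 y (fun i hi => hy i (by omega))]
      · intro heq
        rw [Sym2.eq_iff] at heq
        rcases heq with ⟨_, h⟩ | ⟨h, h'⟩
        · exact hy t (by omega) h
        · exact hzx h.symm
      · intro heq
        rw [Sym2.eq_iff] at heq
        rcases heq with ⟨_, h⟩ | ⟨h, h'⟩
        · exact hy (t + 1) le_rfl h
        · exact hy (t + 1) le_rfl (h' ▸ h ▸ rfl)

/-- If `x` is outside the component of `z`, a recolouring at `x` keeps it outside provided no edge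
at `x` with one of the two colours now enters the component. -/
theorem not_mem_Kc_of {c c' : Sym2 V → Option κ} {x z : V} {a b : κ}
    (hx : x ∉ Kc c a b z) (hoff : ∀ e, x ∉ e → c' e = c e)
    (hin : ∀ y, Step c' a b x y → y ∉ Kc c a b z) : x ∉ Kc c' a b z := by
  have key : ∀ u, Relation.ReflTransGen (Step c' a b) z u → u ∈ Kc c a b z := by
    intro u hu
    induction hu with
    | refl => exact self_mem_Kc _ _ _ _
    | @tail p q h1 h2 ih =>
      have hpx : p ≠ x := by rintro rfl; exact hx ih
      by_cases hq : q = x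
      · subst hq
        exact absurd ih (hin p h2.symm)
      · have he : x ∉ s(p, q) := by
          rw [Sym2.mem_iff]; push Not; exact ⟨hpx.symm, Ne.symm hq⟩
        have : Step c a b p q := by
          unfold Step at *
          rw [← hoff _ he]; exact h2
        exact Kc_step ih this
  intro h
  exact hx (key x h)

/-- The fan lemma. -/
theorem fan {E : Set (Sym2 V)} {c : Sym2 V → Option κ} {x z₀ : V} (hst : St E c x z₀) (m : V → κ)
    (hm : ∀ v, s(x, v) ∈ E → Miss c v (m v)) (N : Finset V) (hN : ∀ v, s(x, v) ∈ E → v ∈ N) :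
    (∃ c', Full E c' ∧ ∀ e, x ∉ e → c' e = c e) ∨
    ∃ ε, ¬ Miss c x ε ∧ ∀ a, Miss c x a → ∃ z c', s(x, z) ∈ E ∧ m z = ε ∧ St E c' x z ∧
      (∀ e, x ∉ e → c' e = c e) ∧ (∀ b, Miss c' x b ↔ Miss c x b) ∧ Miss c' z ε ∧ Miss c z ε ∧
      x ∉ Kc c a ε z ∧ x ∉ Kc c' a ε z := by
  classical
  -- the successor function
  have hf : ∀ v, ∃ y, ¬ Miss c x (m v) → c s(x, y) = some (m v) := by
    intro v
    by_cases h : Miss c x (m v)
    · exact ⟨v, fun h' => absurd h h'⟩
    · unfold Miss at h
      push Not at h
      obtain ⟨y, hy⟩ := h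
      exact ⟨y, fun _ => hy⟩
  choose f hf using hf
  let z : ℕ → V := fun n => f^[n] z₀
  have hz0 : z 0 = z₀ := rfl
  have hzs : ∀ n, z (n + 1) = f (z n) := fun n => Function.iterate_succ_apply' f n z₀
  have hst0 : St E c x (z 0) := hst
  -- a general fact: in a fan, members are in `E`
  have hE : ∀ n, (∀ i < n, ¬ Miss c x (m (z i))) → s(x, z n) ∈ E := by
    intro n hn
    rw [hst.mem]
    cases n with
    | zero => right; rfl
    | succ n =>
      left
      rw [hzs, hf _ (hn n (Nat.lt_succ_self n))]
      simp
  by_cases hA : ∃ t, Miss c x (m (z t))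
  · left
    let t := Nat.find hA
    have ht : Miss c x (m (z t)) := Nat.find_spec hA
    have htmin : ∀ i < t, ¬ Miss c x (m (z i)) := fun i hi => Nat.find_min hA hi
    have hper : ∀ i j, z i = z j → ∀ k, z (i + k) = z (j + k) := by
      intro i j hij k
      induction k with
      | zero => exact hij
      | succ k ih => rw [← add_assoc, ← add_assoc, hzs, hzs, ih]
    have hdist : ∀ i j, i < j → j ≤ t → z i ≠ z j := by
      intro i j hij hj heq
      have h1 := hper i j heq (t - j)
      rw [show j + (t - j) = t by omega] at h1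
      exact htmin (i + (t - j)) (by omega) (by rw [h1]; exact ht)
    obtain ⟨c', h1, h2, h3, h4, h5, h6⟩ := fan_shift z m hst0 t hdist
      (fun i hi => by rw [hzs]; exact hf _ (htmin i hi))
      (fun i hi => hm _ (hE i (fun j hj => htmin j (by omega))))
    refine ⟨_, h1.complete (a := m (z t)) ((h3 _).2 ht)
      (h4 _ _ (fun i hi => (hdist i t hi le_rfl).symm) (hm _ (hE t htmin))), ?_⟩
    intro e he
    rw [Function.update_of_ne, h2 e he]
    rintro rfl
    exact he (by simp)
  · right
    push Not at hA
    have hEz : ∀ n, s(x, z n) ∈ E := fun n => hE n (fun i _ => hA i)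
    have hcz : ∀ n, c s(x, z (n + 1)) = some (m (z n)) := fun n => by
      rw [hzs]; exact hf _ (hA n)
    have hrep : ∃ l, ∃ j < l, z j = z l := by
      have h1 : Set.MapsTo z Set.univ (N : Set V) := fun n _ => hN _ (hEz n)
      have h2 := Set.Infinite.exists_ne_map_eq_of_mapsTo Set.infinite_univ h1 N.finite_toSet
      obtain ⟨i, -, j, -, hij, heq⟩ := h2
      rcases Nat.lt_or_gt_of_ne hij with h | h
      · exact ⟨j, i, h, heq⟩
      · exact ⟨i, j, h, heq.symm⟩
    let l := Nat.find hrep
    obtain ⟨j, hjl, hjeq⟩ := Nat.find_spec hrep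
    have hmin : ∀ i k, i < k → k < l → z i ≠ z k := by
      intro i k hik hkl heq
      exact Nat.find_min hrep hkl ⟨i, hik, heq⟩
    have hl : l = Nat.find hrep := rfl
    rw [← hl] at hjl hjeq
    have hj : j ≠ 0 := by
      rintro rfl
      have h1 := hcz (l - 1)
      rw [show l - 1 + 1 = l by omega, ← hjeq, hz0, hst.none_pq] at h1
      exact absurd h1 (by simp)
    obtain ⟨p, rfl⟩ : ∃ p, j = p + 1 := ⟨j - 1, by omega⟩
    obtain ⟨q, hq⟩ : ∃ q, l = q + 1 := ⟨l - 1, by omega⟩
    rw [hq] at hjl hjeq hmin
    have hpq : p < q := by omega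
    have hmm : m (z p) = m (z q) := by
      have h1 := hcz p
      have h2 := hcz q
      rw [hjeq, h2] at h1
      simpa using h1.symm
    have hzx : ∀ n, z n ≠ x := by
      intro n hn
      have h1 := hEz n
      rw [hn, hst.mem] at h1
      rcases h1 with h1 | h1
      · exact h1 (hst.proper.diag x)
      · rw [Sym2.eq_iff] at h1
        rcases h1 with ⟨_, h⟩ | ⟨h, _⟩
        · exact hst.ne h
        · exact hst.ne h
    refine ⟨m (z p), hA p, fun a ha => ?_⟩
    set ε := m (z p) with hε
    have hmisp : Miss c (z p) ε := hm _ (hEz p)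
    have hmisq : Miss c (z q) ε := by rw [hmm]; exact hm _ (hEz q)
    have hεa : ε ≠ a := by
      rintro h
      exact hA p (by rw [← hε, h]; exact ha)
    have hzinj : ∀ i k, i ≤ q → k ≤ q → z i = z k → i = k := by
      intro i k hi hk h
      by_contra hne
      rcases Nat.lt_or_gt_of_ne hne with h' | h'
      · exact hmin i k h' (by omega) h
      · exact hmin k i h' (by omega) h.symm
    -- which fan members carry the colour `ε`
    have hcol : ∀ i < q, m (z i) = ε → i = p := by
      intro i hi h
      have h1 := hcz i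
      rw [h] at h1
      have h2 := hst.proper.inj _ _ _ _ h1 (hcz p)
      have := hzinj (i + 1) (p + 1) (by omega) (by omega) h2
      omega
    by_cases hp : z p ∈ Kc c a ε x
    · -- then `z q` is in another component
      have hqn : z q ∉ Kc c a ε x := by
        intro hq'
        have := endpoint_unique hst.proper (Or.inl ha) hp hq' (hzx p) (hzx q)
          (Or.inr hmisp) (Or.inr hmisq)
        exact absurd (hzinj p q (by omega) le_rfl this) (by omega)
      have hxq : x ∉ Kc c a ε (z q) := fun h => hqn (Kc_symm h)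
      obtain ⟨c', h1, h2, h3, h4, h5, h6⟩ := fan_shift z m hst0 q
        (fun i k hik hk => hmin i k hik (by omega)) (fun i _ => hcz i)
        (fun i _ => hm _ (hEz i))
      refine ⟨z q, c', hEz q, hmm.symm, h1, h2, h3, ?_, hmisq, hxq, ?_⟩
      · exact h4 _ _ (fun i hi => (hmin i q hi (by omega)).symm) hmisq
      · apply not_mem_Kc_of hxq h2
        intro y hy hyK
        rcases hy with hy | hy
        · exact (h3 a).2 ha y hy
        · by_cases hyz : ∃ i ≤ q, y = z i
          · obtain ⟨i, hi, rfl⟩ := hyz
            rcases Nat.lt_or_eq_of_le hi with hi | rfl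
            · rw [h5 i hi] at hy
              have := hcol i hi (by simpa using hy)
              subst this
              -- z i in the component of x and of z q
              exact hxq (Kc_trans hyK (Kc_symm hp))
            · rw [h1.none_pq] at hy; exact absurd hy (by simp)
          · push Not at hyz
            rw [h6 y hyz] at hy
            have := hst.proper.inj _ _ _ _ hy (hcz p)
            exact hyz (p + 1) (by omega) this
    · have hxp : x ∉ Kc c a ε (z p) := fun h => hp (Kc_symm h)
      obtain ⟨c', h1, h2, h3, h4, h5, h6⟩ := fan_shift z m hst0 p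
        (fun i k hik hk => hmin i k hik (by omega)) (fun i _ => hcz i)
        (fun i _ => hm _ (hEz i))
      refine ⟨z p, c', hEz p, rfl, h1, h2, h3, ?_, hmisp, hxp, ?_⟩
      · exact h4 _ _ (fun i hi => (hmin i p hi (by omega)).symm) hmisp
      · apply not_mem_Kc_of hxp h2
        intro y hy hyK
        rcases hy with hy | hy
        · exact (h3 a).2 ha y hy
        · have hcy : c s(x, y) = some ε := by
            by_cases hyz : ∃ i ≤ p, y = z i
            · obtain ⟨i, hi, rfl⟩ := hyz
              rcases Nat.lt_or_eq_of_le hi with hi | rfl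
              · rw [h5 i hi] at hy
                have := hcol i (by omega) (by simpa using hy)
                omega
              · rw [h1.none_pq] at hy; exact absurd hy (by simp)
            · push Not at hyz
              rw [h6 y hyz] at hy
              exact hy
          exact hxp (Kc_step hyK (Or.inr (by rw [Sym2.eq_swap]; exact hcy)))

end Pool.Agent.Helper561.Kempe
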