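import Mathlib

set_option autoImplicit false

namespace Pool.Agent.Helper561.FOM

open Module

section core

variable {R G : Type*} [NormedRing R] [NormedAlgebra ℝ R] [Group G] (T : G →* R)

lemma norm_comm_sub_one (hT : ∀ g, ‖T g‖ ≤ 1) (g h : G) :
    ‖T (g * h * g⁻¹ * h⁻¹) - 1‖ ≤ 2 * ‖T g - 1‖ * ‖T h - 1‖ := by
  have h1 : T (g * h * g⁻¹ * h⁻¹) - 1 =
      ((T g - 1) * (T h - 1) - (T h - 1) * (T g - 1)) * T (g⁻¹ * h⁻¹) := by
    have e1 : (T g - 1) * (T h - 1) - (T h - 1) * (T g - 1) = T (g * h) - T (h * g) := by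
      rw [map_mul, map_mul]; noncomm_ring
    have e2 : (1 : R) = T (h * g * (g⁻¹ * h⁻¹)) := by
      rw [show h * g * (g⁻¹ * h⁻¹) = 1 by group, map_one]
    rw [e1, sub_mul, ← map_mul, ← map_mul, ← e2]
    congr 2
    group
  rw [h1]
  calc _ ≤ ‖(T g - 1) * (T h - 1) - (T h - 1) * (T g - 1)‖ * ‖T (g⁻¹ * h⁻¹)‖ := norm_mul_le _ _
    _ ≤ ‖(T g - 1) * (T h - 1) - (T h - 1) * (T g - 1)‖ * 1 := by
      gcongr; exact hT _
    _ ≤ ‖(T g - 1) * (T h - 1)‖ + ‖(T h - 1) * (T g - 1)‖ := by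
      rw [mul_one]; exact norm_sub_le _ _
    _ ≤ ‖T g - 1‖ * ‖T h - 1‖ + ‖T h - 1‖ * ‖T g - 1‖ :=
      add_le_add (norm_mul_le _ _) (norm_mul_le _ _)
    _ = _ := by ring

lemma eq_one_of_powers_close (hinj : Function.Injective T) (c : G) (hfo : 0 < orderOf c)
    (r : ℝ) (hr : r < 1) (h : ∀ m : ℕ, ‖T (c ^ m) - 1‖ ≤ r) : c = 1 := by
  set k := orderOf c with hk
  have hk0 : 0 < k := hfo
  have hkr : (0 : ℝ) < k := by exact_mod_cast hk0
  set P : R := (k : ℝ)⁻¹ • ∑ m ∈ Finset.range k, T (c ^ m) with hP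
  have hcP : (T c - 1) * P = 0 := by
    have : ∑ m ∈ Finset.range k, T c * T (c ^ m) = ∑ m ∈ Finset.range k, T (c ^ m) := by
      have h1 : ∀ m, T c * T (c ^ m) = T (c ^ (m + 1)) := fun m => by rw [← map_mul, pow_succ']
      simp_rw [h1]
      have h2 := Finset.sum_range_succ (fun m => T (c ^ m)) k
      have h3 := Finset.sum_range_succ' (fun m => T (c ^ m)) k
      rw [h2] at h3
      have h4 : T (c ^ k) = T (c ^ 0) := by rw [hk, pow_orderOf_eq_one, pow_zero]
      rw [h4] at h3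
      exact (add_right_cancel h3).symm
    rw [hP, mul_smul_comm, sub_mul, one_mul, Finset.mul_sum, this, sub_self, smul_zero]
  have hP1 : ‖1 - P‖ ≤ r := by
    have : 1 - P = (k : ℝ)⁻¹ • ∑ m ∈ Finset.range k, (1 - T (c ^ m)) := by
      rw [Finset.sum_sub_distrib, smul_sub, hP]
      congr 1
      rw [Finset.sum_const, Finset.card_range, ← Nat.cast_smul_eq_nsmul ℝ, smul_smul,
        inv_mul_cancel₀ hkr.ne', one_smul]
    rw [this, norm_smul, norm_inv, Real.norm_natCast]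
    calc (k : ℝ)⁻¹ * ‖∑ m ∈ Finset.range k, (1 - T (c ^ m))‖
        ≤ (k : ℝ)⁻¹ * ∑ m ∈ Finset.range k, ‖1 - T (c ^ m)‖ := by
          gcongr; exact norm_sum_le _ _
      _ ≤ (k : ℝ)⁻¹ * ∑ m ∈ Finset.range k, r := by
          gcongr with m _
          rw [norm_sub_rev]; exact h m
      _ = r := by
          rw [Finset.sum_const, Finset.card_range, nsmul_eq_mul, ← mul_assoc,
            inv_mul_cancel₀ hkr.ne', one_mul]
  have hy : T c - 1 = (T c - 1) * (1 - P) := by rw [mul_sub, mul_one, hcP, sub_zero]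
  have hn : ‖T c - 1‖ ≤ ‖T c - 1‖ * r := by
    calc ‖T c - 1‖ = ‖(T c - 1) * (1 - P)‖ := by rw [← hy]
      _ ≤ ‖T c - 1‖ * ‖1 - P‖ := norm_mul_le _ _
      _ ≤ ‖T c - 1‖ * r := by gcongr
  have h0 : ‖T c - 1‖ = 0 := by
    have := norm_nonneg (T c - 1)
    nlinarith
  apply hinj
  rw [map_one]
  exact sub_eq_zero.mp (norm_eq_zero.mp h0)

lemma comm_eq_one [Finite G] (hinj : Function.Injective T) (hT : ∀ g, ‖T g‖ ≤ 1) (g h : G)
    (hh : ‖T h - 1‖ < 1 / 2) (hc : Commute g (g * h * g⁻¹ * h⁻¹)) :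
    g * h * g⁻¹ * h⁻¹ = 1 := by
  set c := g * h * g⁻¹ * h⁻¹ with hcdef
  have hpow : ∀ m : ℕ, c ^ m = g ^ m * h * (g ^ m)⁻¹ * h⁻¹ := by
    intro m
    induction m with
    | zero => simp
    | succ m ih =>
      have e1 : g * c ^ m = c ^ m * g := (hc.pow_right m)
      have e2 : g ^ m * h * (g ^ m)⁻¹ = c ^ m * h := by rw [ih]; group
      calc c ^ (m + 1) = c ^ m * c := pow_succ _ _
        _ = c ^ m * (g * h * g⁻¹ * h⁻¹) := by rw [← hcdef]
        _ = (c ^ m * g) * h * g⁻¹ * h⁻¹ := by group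
        _ = g * (c ^ m * h) * g⁻¹ * h⁻¹ := by rw [← e1]; group
        _ = g * (g ^ m * h * (g ^ m)⁻¹) * g⁻¹ * h⁻¹ := by rw [e2]
        _ = _ := by rw [pow_succ']; group
  refine eq_one_of_powers_close T hinj c (orderOf_pos c) (2 * ‖T h - 1‖) (by linarith)
    (fun m => ?_)
  have h1 : T (c ^ m) - 1 = (T (g ^ m) * (T h - 1) * T ((g ^ m)⁻¹) - (T h - 1)) * T h⁻¹ := by
    have e1 : T (g ^ m) * (T h - 1) * T ((g ^ m)⁻¹) = T (g ^ m * h * (g ^ m)⁻¹) - 1 := by
      rw [mul_sub, sub_mul, mul_one, ← map_mul, ← map_mul, ← map_mul, mul_inv_cancel, map_one]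
    rw [e1, show T (g ^ m * h * (g ^ m)⁻¹) - 1 - (T h - 1) = T (g ^ m * h * (g ^ m)⁻¹) - T h by
      abel, sub_mul, ← map_mul, ← map_mul, mul_inv_cancel, map_one, hpow]
  rw [h1]
  calc _ ≤ ‖T (g ^ m) * (T h - 1) * T ((g ^ m)⁻¹) - (T h - 1)‖ * ‖T h⁻¹‖ := norm_mul_le _ _
    _ ≤ ‖T (g ^ m) * (T h - 1) * T ((g ^ m)⁻¹) - (T h - 1)‖ * 1 := by
      gcongr; exact hT _
    _ ≤ ‖T (g ^ m) * (T h - 1) * T ((g ^ m)⁻¹)‖ + ‖T h - 1‖ := by
      rw [mul_one]; exact norm_sub_le _ _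
    _ ≤ 1 * ‖T h - 1‖ * 1 + ‖T h - 1‖ := by
      gcongr
      refine (norm_mul_le _ _).trans ?_
      gcongr
      · refine (norm_mul_le _ _).trans ?_
        gcongr
        exact hT _
      · exact hT _
    _ = _ := by ring

lemma small_commute [Finite G] (hinj : Function.Injective T) (hT : ∀ g, ‖T g‖ ≤ 1) (g h : G)
    (hg : ‖T g - 1‖ < 1 / 2) (hh : ‖T h - 1‖ < 1 / 2) : g * h = h * g := by
  by_contra hne
  set Bad : Set G := {h | ‖T h - 1‖ < 1 / 2 ∧ ∃ g, ‖T g - 1‖ < 1 / 2 ∧ g * h ≠ h * g} with hBad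
  have hfin : Bad.Finite := Set.toFinite _
  have hnon : Bad.Nonempty := ⟨h, hh, g, hg, hne⟩
  obtain ⟨a, ⟨ha1, b, hb1, hab⟩, hmin⟩ := Set.exists_min_image Bad (fun x => ‖T x - 1‖) hfin hnon
  have ha0 : 0 < ‖T a - 1‖ := by
    rw [norm_pos_iff, sub_ne_zero]
    intro h1
    have : a = 1 := hinj (by rw [h1, map_one])
    rw [this] at hab
    simp at hab
  have hc := norm_comm_sub_one T hT b a
  have hlt : ‖T (b * a * b⁻¹ * a⁻¹) - 1‖ < ‖T a - 1‖ := by nlinarith
  have hcB : b * a * b⁻¹ * a⁻¹ ∉ Bad := by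
    intro hmem
    exact absurd (hmin _ hmem) (not_le.mpr hlt)
  have hcomm : Commute b (b * a * b⁻¹ * a⁻¹) := by
    by_contra hno
    exact hcB ⟨hlt.trans ha1, b, hb1, hno⟩
  have h1 := comm_eq_one T hinj hT b a ha1 hcomm
  apply hab
  have : b * a * b⁻¹ * a⁻¹ * (a * b) = a * b := by rw [h1, one_mul]
  rw [← this]; group

theorem jordan_core [FiniteDimensional ℝ R] [Finite G] (hinj : Function.Injective T)
    (hT : ∀ g, ‖T g‖ ≤ 1) :
    ∃ A : Subgroup G, (∀ a ∈ A, ∀ b ∈ A, a * b = b * a) ∧ A.index ≤ 5 ^ finrank ℝ R := by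
  classical
  set S : Set G := {g | ‖T g - 1‖ < 1 / 2} with hS
  set A := Subgroup.closure S with hA
  have hcomm : ∀ a ∈ A, ∀ b ∈ A, a * b = b * a := by
    have h1 : A ≤ Subgroup.centralizer S := by
      rw [hA, Subgroup.closure_le]
      intro g hg
      rw [SetLike.mem_coe, Subgroup.mem_centralizer_iff]
      intro h hh
      exact small_commute T hinj hT h g hh hg
    intro a ha b hb
    have h2 : A ≤ Subgroup.centralizer {b} := by
      rw [hA, Subgroup.closure_le]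
      intro g hg
      rw [SetLike.mem_coe, Subgroup.mem_centralizer_iff]
      intro h hh
      rw [Set.mem_singleton_iff] at hh
      rw [hh]
      exact ((Subgroup.mem_centralizer_iff.mp (h1 hb)) g hg).symm
    exact ((Subgroup.mem_centralizer_iff.mp (h2 ha)) b rfl).symm
  refine ⟨A, hcomm, ?_⟩
  haveI : Fintype (G ⧸ A) := Fintype.ofFinite _
  have hsep : ∀ q q' : G ⧸ A, q ≠ q' → 1 / 2 ≤ ‖T q.out - T q'.out‖ := by
    intro q q' hq
    by_contra hlt
    push Not at hlt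
    apply hq
    have hmem : q'.out⁻¹ * q.out ∈ S := by
      show ‖T (q'.out⁻¹ * q.out) - 1‖ < 1 / 2
      have : T (q'.out⁻¹ * q.out) - 1 = T (q'.out⁻¹) * (T q.out - T q'.out) := by
        rw [mul_sub, ← map_mul, ← map_mul, inv_mul_cancel, map_one]
      rw [this]
      calc _ ≤ ‖T (q'.out⁻¹)‖ * ‖T q.out - T q'.out‖ := norm_mul_le _ _
        _ ≤ 1 * ‖T q.out - T q'.out‖ := by gcongr; exact hT _
        _ < 1 / 2 := by rw [one_mul]; exact hlt
    have h1 : (QuotientGroup.mk q'.out : G ⧸ A) = QuotientGroup.mk q.out :=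
      QuotientGroup.eq.mpr (Subgroup.subset_closure hmem)
    rw [QuotientGroup.out_eq', QuotientGroup.out_eq'] at h1
    exact h1.symm
  let φ : G ⧸ A → R := fun q => (2 : ℝ) • T q.out
  have hφinj : Function.Injective φ := by
    intro q q' h
    by_contra hne
    have h1 := hsep q q' hne
    have h2 : T q.out = T q'.out := by
      have : (2 : ℝ) • T q.out = (2 : ℝ) • T q'.out := h
      exact smul_right_injective R (two_ne_zero) this
    rw [h2, sub_self, norm_zero] at h1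
    norm_num at h1
  have hcard := Besicovitch.card_le_of_separated (Finset.univ.image φ)
    (by
      intro c hc
      obtain ⟨q, -, rfl⟩ := Finset.mem_image.mp hc
      show ‖(2 : ℝ) • T q.out‖ ≤ 2
      rw [norm_smul]
      have := hT q.out
      norm_num
      linarith)
    (by
      intro c hc d hd hcd
      obtain ⟨q, -, rfl⟩ := Finset.mem_image.mp hc
      obtain ⟨q', -, rfl⟩ := Finset.mem_image.mp hd
      have hne : q ≠ q' := fun h => hcd (by rw [h])
      show 1 ≤ ‖(2 : ℝ) • T q.out - (2 : ℝ) • T q'.out‖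
      rw [← smul_sub, norm_smul]
      have := hsep q q' hne
      norm_num
      linarith)
  rw [Finset.card_image_of_injective _ hφinj, Finset.card_univ] at hcard
  rw [Subgroup.index, Nat.card_eq_fintype_card]
  exact hcard

end core


section lin

/-- An invariant norm. -/
lemma exists_invariant_core {V G : Type*} [AddCommGroup V] [Module ℂ V] [FiniteDimensional ℂ V]
    [Group G] [Finite G] (ρ : G →* (V →ₗ[ℂ] V)) :
    ∃ N : V → ℝ, (∀ g x, N (ρ g x) = N x) ∧ (∀ x, 0 ≤ N x) ∧ (∀ (c : ℂ) x, N (c • x) = ‖c‖ * N x) ∧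
      (∀ x y, N (x + y) ≤ N x + N y) ∧ (∀ x, N x = 0 ↔ x = 0) := by
  classical
  haveI : Fintype G := Fintype.ofFinite G
  let b := Module.finBasis ℂ V
  let N₀ : V → ℝ := fun x => ‖b.equivFun x‖
  refine ⟨fun x => ∑ g : G, N₀ (ρ g x), ?_, ?_, ?_, ?_, ?_⟩
  · intro h x
    have : ∀ g, ρ g (ρ h x) = ρ (g * h) x := fun g => by rw [map_mul]; rfl
    simp_rw [this]
    exact Fintype.sum_equiv (Equiv.mulRight h) _ _ (fun g => rfl)
  · intro x
    exact Finset.sum_nonneg (fun g _ => norm_nonneg _)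
  · intro c x
    rw [Finset.mul_sum]
    refine Finset.sum_congr rfl (fun g _ => ?_)
    show ‖b.equivFun (ρ g (c • x))‖ = ‖c‖ * ‖b.equivFun (ρ g x)‖
    rw [map_smul, map_smul, norm_smul]
  · intro x y
    rw [← Finset.sum_add_distrib]
    refine Finset.sum_le_sum (fun g _ => ?_)
    show ‖b.equivFun (ρ g (x + y))‖ ≤ _
    rw [map_add, map_add]
    exact norm_add_le _ _
  · intro x
    constructor
    · intro h
      have h1 := (Finset.sum_eq_zero_iff_of_nonneg (fun g _ => norm_nonneg _)).mp h 1 (Finset.mem_univ _)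
      have h2 : ‖b.equivFun (ρ 1 x)‖ = 0 := h1
      rw [map_one, norm_eq_zero] at h2
      exact b.equivFun.map_eq_zero_iff.mp h2
    · intro h
      rw [h]
      refine Finset.sum_eq_zero (fun g _ => ?_)
      show ‖b.equivFun (ρ g 0)‖ = 0
      simp

/-- Jordan's theorem, weak form: a finite group of linear maps of an `n`-dimensional complex space
has an abelian subgroup of index at most `5 ^ (2 n²)`. -/
theorem jordan_linear {V G : Type*} [AddCommGroup V] [Module ℂ V] [FiniteDimensional ℂ V]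
    [Group G] [Finite G] (ρ : G →* (V →ₗ[ℂ] V)) (hinj : Function.Injective ρ) :
    ∃ A : Subgroup G, (∀ a ∈ A, ∀ b ∈ A, a * b = b * a) ∧
      A.index ≤ 5 ^ (2 * (finrank ℂ V * finrank ℂ V)) := by
  obtain ⟨N, hN1, hN2, hN3, hN4, hN5⟩ := exists_invariant_core ρ
  letI : Norm V := ⟨N⟩
  have core : NormedSpace.Core ℂ V :=
    { norm_nonneg := hN2
      norm_smul := hN3
      norm_triangle := hN4
      norm_eq_zero_iff := hN5 }
  letI : NormedAddCommGroup V := NormedAddCommGroup.ofCore core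
  letI : NormedSpace ℂ V := NormedSpace.ofCore core
  let T : G →* (V →L[ℂ] V) :=
    { toFun := fun g => LinearMap.toContinuousLinearMap (ρ g)
      map_one' := by ext x; simp
      map_mul' := by intro g h; ext x; simp }
  have hTinj : Function.Injective T := by
    intro g h hgh
    apply hinj
    exact LinearMap.toContinuousLinearMap.injective hgh
  have hT : ∀ g, ‖T g‖ ≤ 1 := by
    intro g
    refine ContinuousLinearMap.opNorm_le_bound _ zero_le_one (fun x => ?_)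
    rw [one_mul]
    exact (hN1 g x).le
  obtain ⟨A, hA, hi⟩ := jordan_core (R := V →L[ℂ] V) T hTinj hT
  refine ⟨A, hA, hi.trans (le_of_eq ?_)⟩
  congr 1
  rw [finrank_real_of_complex]
  congr 1
  rw [← (LinearMap.toContinuousLinearMap (𝕜 := ℂ) (E := V) (F' := V)).finrank_eq,
    Module.finrank_linearMap]

end lin

end Pool.Agent.Helper561.FOM
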