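import Mathlib

set_option autoImplicit false

namespace Pool.Agent.Helper561.Kempe

variable {V : Type*} {κ : Type*}

/-- A partial edge colouring in which edges at a common vertex get different colours. -/
structure Proper (c : Sym2 V → Option κ) : Prop where
  diag : ∀ v, c s(v, v) = none
  inj : ∀ u v w a, c s(u, v) = some a → c s(u, w) = some a → v = w

/-- The colour `a` is not used at `v`. -/
def Miss (c : Sym2 V → Option κ) (v : V) (a : κ) : Prop := ∀ w, c s(v, w) ≠ some a

/-- All edges of `E` are coloured except the edge `pq`. -/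
structure St (E : Set (Sym2 V)) (c : Sym2 V → Option κ) (p q : V) : Prop where
  proper : Proper c
  none_pq : c s(p, q) = none
  ne : p ≠ q
  mem : ∀ e, e ∈ E ↔ (c e ≠ none ∨ e = s(p, q))

/-- Exactly the edges of `E` are coloured. -/
structure Full (E : Set (Sym2 V)) (c : Sym2 V → Option κ) : Prop where
  proper : Proper c
  mem : ∀ e, e ∈ E ↔ c e ≠ none

theorem St.symm {E : Set (Sym2 V)} {c : Sym2 V → Option κ} {p q : V} (h : St E c p q) :
    St E c q p :=
  ⟨h.proper, by rw [Sym2.eq_swap]; exact h.none_pq, h.ne.symm, by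
    intro e; rw [h.mem e, Sym2.eq_swap (a := q)]⟩

theorem Proper.inj' {c : Sym2 V → Option κ} (h : Proper c) {u v w : V} {a : κ}
    (h1 : c s(v, u) = some a) (h2 : c s(w, u) = some a) : v = w :=
  h.inj u v w a (by rw [Sym2.eq_swap]; exact h1) (by rw [Sym2.eq_swap]; exact h2)

open Classical in
/-- Give the colour `a` to the uncoloured edge `pq`. -/
theorem St.complete {E : Set (Sym2 V)} {c : Sym2 V → Option κ} {p q : V} (h : St E c p q)
    {a : κ} (hp : Miss c p a) (hq : Miss c q a) :
    Full E (Function.update c s(p, q) (some a)) := by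
  have hval : ∀ e, e ≠ s(p, q) → Function.update c s(p, q) (some a) e = c e :=
    fun e he => Function.update_of_ne he _ _
  refine ⟨⟨?_, ?_⟩, ?_⟩
  · intro v
    rw [hval]
    · exact h.proper.diag v
    · intro heq
      rw [Sym2.eq_iff] at heq
      rcases heq with ⟨h1, h2⟩ | ⟨h1, h2⟩
      · exact h.ne (h1.symm.trans h2)
      · exact h.ne (h2.symm.trans h1)
  · intro u v w b h1 h2
    by_cases e1 : s(u, v) = s(p, q)
    · by_cases e2 : s(u, w) = s(p, q)
      · have := e1.trans e2.symm
        rw [Sym2.eq_iff] at this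
        rcases this with ⟨_, h⟩ | ⟨h, h'⟩
        · exact h
        · rw [h'] ; exact h
      · rw [e1, Function.update_self] at h1
        rw [hval _ e2] at h2
        obtain rfl : a = b := by simpa using h1
        rw [Sym2.eq_iff] at e1
        rcases e1 with ⟨rfl, rfl⟩ | ⟨rfl, rfl⟩
        · exact absurd h2 (hp w)
        · exact absurd h2 (hq w)
    · by_cases e2 : s(u, w) = s(p, q)
      · rw [e2, Function.update_self] at h2
        rw [hval _ e1] at h1
        obtain rfl : a = b := by simpa using h2
        rw [Sym2.eq_iff] at e2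
        rcases e2 with ⟨rfl, rfl⟩ | ⟨rfl, rfl⟩
        · exact absurd h1 (hp v)
        · exact absurd h1 (hq v)
      · rw [hval _ e1] at h1
        rw [hval _ e2] at h2
        exact h.proper.inj u v w b h1 h2
  · intro e
    rw [h.mem e]
    by_cases he : e = s(p, q)
    · rw [he, Function.update_self]; simp
    · rw [hval _ he]; simp [he]

open Classical in
/-- Move the uncoloured edge from `pq` to `pr`. -/
noncomputable def shift (c : Sym2 V → Option κ) (p q r : V) (a : κ) : Sym2 V → Option κ :=
  Function.update (Function.update c s(p, r) none) s(p, q) (some a)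

theorem shift_pq (c : Sym2 V → Option κ) (p q r : V) (a : κ) :
    shift c p q r a s(p, q) = some a := by
  classical
  unfold shift; rw [Function.update_self]

theorem shift_pr (c : Sym2 V → Option κ) (p q r : V) (a : κ) (h : q ≠ r) (_hp : p ≠ q) :
    shift c p q r a s(p, r) = none := by
  classical
  unfold shift
  rw [Function.update_of_ne, Function.update_self]
  intro heq
  rw [Sym2.eq_iff] at heq
  rcases heq with ⟨_, h'⟩ | ⟨h1, h2⟩
  · exact h h'.symm
  · exact h (h1 ▸ h2 ▸ rfl)

theorem shift_of_ne (c : Sym2 V → Option κ) (p q r : V) (a : κ) (e : Sym2 V)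
    (h1 : e ≠ s(p, q)) (h2 : e ≠ s(p, r)) : shift c p q r a e = c e := by
  classical
  unfold shift
  rw [Function.update_of_ne h1, Function.update_of_ne h2]

theorem St.shift {E : Set (Sym2 V)} {c : Sym2 V → Option κ} {p q r : V} (h : St E c p q)
    {a : κ} (hr : c s(p, r) = some a) (hq : Miss c q a) :
    St E (shift c p q r a) p r := by
  have hqr : q ≠ r := by
    rintro rfl
    rw [h.none_pq] at hr; exact absurd hr (by simp)
  have hpr : p ≠ r := by
    rintro rfl
    rw [h.proper.diag] at hr; exact absurd hr (by simp)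
  have hne : s(p, q) ≠ s(p, r) := by
    intro heq
    rw [Sym2.eq_iff] at heq
    rcases heq with ⟨_, h'⟩ | ⟨h1, h2⟩
    · exact hqr h'
    · exact hpr h1
  refine ⟨⟨?_, ?_⟩, shift_pr c p q r a hqr h.ne, hpr, ?_⟩
  · intro v
    rw [shift_of_ne]
    · exact h.proper.diag v
    · intro heq
      rw [Sym2.eq_iff] at heq
      rcases heq with ⟨h1, h2⟩ | ⟨h1, h2⟩
      · exact h.ne (h1.symm.trans h2)
      · exact h.ne (h2.symm.trans h1)
    · intro heq
      rw [Sym2.eq_iff] at heq
      rcases heq with ⟨h1, h2⟩ | ⟨h1, h2⟩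
      · exact hpr (h1.symm.trans h2)
      · exact hpr (h2.symm.trans h1)
  · -- auxiliary: a colour `b` at `u` other than through `pq`
    have key : ∀ u v b, Pool.Agent.Helper561.Kempe.shift c p q r a s(u, v) = some b →
        s(u, v) ≠ s(p, q) → c s(u, v) = some b ∧ s(u, v) ≠ s(p, r) := by
      intro u v b h1 h2
      by_cases h3 : s(u, v) = s(p, r)
      · rw [h3, shift_pr c p q r a hqr h.ne] at h1
        exact absurd h1 (by simp)
      · rw [shift_of_ne _ _ _ _ _ _ h2 h3] at h1
        exact ⟨h1, h3⟩
    intro u v w b h1 h2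
    by_cases e1 : s(u, v) = s(p, q)
    · by_cases e2 : s(u, w) = s(p, q)
      · have := e1.trans e2.symm
        rw [Sym2.eq_iff] at this
        rcases this with ⟨_, h⟩ | ⟨h, h'⟩
        · exact h
        · rw [h'] ; exact h
      · obtain ⟨h3, h4⟩ := key u w b h2 e2
        rw [e1, shift_pq] at h1
        obtain rfl : a = b := by simpa using h1
        rw [Sym2.eq_iff] at e1
        rcases e1 with ⟨rfl, rfl⟩ | ⟨rfl, rfl⟩
        · exact absurd (by rw [h.proper.inj _ _ _ _ h3 hr]) h4
        · exact absurd h3 (hq w)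
    · by_cases e2 : s(u, w) = s(p, q)
      · obtain ⟨h3, h4⟩ := key u v b h1 e1
        rw [e2, shift_pq] at h2
        obtain rfl : a = b := by simpa using h2
        rw [Sym2.eq_iff] at e2
        rcases e2 with ⟨rfl, rfl⟩ | ⟨rfl, rfl⟩
        · exact absurd (by rw [h.proper.inj _ _ _ _ h3 hr]) h4
        · exact absurd h3 (hq v)
      · exact h.proper.inj u v w b (key u v b h1 e1).1 (key u w b h2 e2).1
  · intro e
    rw [h.mem e]
    by_cases he : e = s(p, q)
    · rw [he, shift_pq]; simp
    · by_cases he' : e = s(p, r)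
      · rw [he', hr]; simp
      · rw [shift_of_ne _ _ _ _ _ _ he he']; simp [he, he']

/-- Away from `q`, shifting only frees colours. -/
theorem shift_miss {E : Set (Sym2 V)} {c : Sym2 V → Option κ} {p q r : V} (h : St E c p q)
    {a : κ} (hr : c s(p, r) = some a) {v : V} (hv : v ≠ q) {b : κ} (hb : Miss c v b) :
    Miss (shift c p q r a) v b := by
  have hqr : q ≠ r := by
    rintro rfl
    rw [h.none_pq] at hr; exact absurd hr (by simp)
  intro w hw
  by_cases e1 : s(v, w) = s(p, q)
  · rw [e1, shift_pq] at hw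
    obtain rfl : a = b := by simpa using hw
    rw [Sym2.eq_iff] at e1
    rcases e1 with ⟨rfl, rfl⟩ | ⟨rfl, rfl⟩
    · exact hb _ hr
    · exact hv rfl
  · by_cases e2 : s(v, w) = s(p, r)
    · rw [e2, shift_pr c p q r a hqr h.ne] at hw
      exact absurd hw (by simp)
    · rw [shift_of_ne _ _ _ _ _ _ e1 e2] at hw
      exact hb w hw

theorem shift_miss_q {E : Set (Sym2 V)} {c : Sym2 V → Option κ} {p q r : V} (h : St E c p q)
    {a : κ} (hr : c s(p, r) = some a) {b : κ} (hb : Miss c q b) (hab : b ≠ a) :
    Miss (shift c p q r a) q b := by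
  have hqr : q ≠ r := by
    rintro rfl
    rw [h.none_pq] at hr; exact absurd hr (by simp)
  intro w hw
  by_cases e1 : s(q, w) = s(p, q)
  · rw [e1, shift_pq] at hw
    exact hab (by simpa using hw.symm)
  · by_cases e2 : s(q, w) = s(p, r)
    · rw [e2, shift_pr c p q r a hqr h.ne] at hw
      exact absurd hw (by simp)
    · rw [shift_of_ne _ _ _ _ _ _ e1 e2] at hw
      exact hb w hw

theorem shift_miss_r {E : Set (Sym2 V)} {c : Sym2 V → Option κ} {p q r : V} (h : St E c p q)
    {a : κ} (hr : c s(p, r) = some a) :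
    Miss (shift c p q r a) r a := by
  have hqr : q ≠ r := by
    rintro rfl
    rw [h.none_pq] at hr; exact absurd hr (by simp)
  have hpr : p ≠ r := by
    rintro rfl
    rw [h.proper.diag] at hr; exact absurd hr (by simp)
  intro w hw
  by_cases e1 : s(r, w) = s(p, q)
  · rw [Sym2.eq_iff] at e1
    rcases e1 with ⟨h1, _⟩ | ⟨h1, _⟩
    · exact hpr h1.symm
    · exact hqr h1.symm
  · by_cases e2 : s(r, w) = s(p, r)
    · rw [e2, shift_pr c p q r a hqr h.ne] at hw
      exact absurd hw (by simp)
    · rw [shift_of_ne _ _ _ _ _ _ e1 e2] at hw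
      apply e2
      have := h.proper.inj r w p a hw (by rw [Sym2.eq_swap]; exact hr)
      rw [this, Sym2.eq_swap]

theorem shift_miss_p_iff {E : Set (Sym2 V)} {c : Sym2 V → Option κ} {p q r : V} (h : St E c p q)
    {a : κ} (hr : c s(p, r) = some a) (b : κ) :
    Miss (shift c p q r a) p b ↔ Miss c p b := by
  constructor
  · intro hb w hw
    by_cases e1 : s(p, w) = s(p, q)
    · rw [e1, h.none_pq] at hw; exact absurd hw (by simp)
    · by_cases e2 : s(p, w) = s(p, r)
      · rw [e2, hr] at hw
        obtain rfl : a = b := by simpa using hw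
        exact hb q (shift_pq c p q r a)
      · exact hb w (by rw [shift_of_ne _ _ _ _ _ _ e1 e2]; exact hw)
  · intro hb
    exact shift_miss h hr h.ne hb

end Pool.Agent.Helper561.Kempe
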