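import Pool.Agent.Helper561.Kempe

set_option autoImplicit false

namespace Pool.Agent.Helper561.Kempe

variable {V : Type*} {κ : Type*}

/-- One step along an edge coloured `a` or `b`. -/
def Step (c : Sym2 V → Option κ) (a b : κ) (u v : V) : Prop :=
  c s(u, v) = some a ∨ c s(u, v) = some b

/-- The two-coloured component of `v`. -/
def Kc (c : Sym2 V → Option κ) (a b : κ) (v : V) : Set V :=
  {u | Relation.ReflTransGen (Step c a b) v u}

theorem Step.symm {c : Sym2 V → Option κ} {a b : κ} {u v : V} (h : Step c a b u v) :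
    Step c a b v u := by
  unfold Step at *
  rw [Sym2.eq_swap]; exact h

theorem self_mem_Kc (c : Sym2 V → Option κ) (a b : κ) (v : V) : v ∈ Kc c a b v :=
  Relation.ReflTransGen.refl

theorem Kc_symm {c : Sym2 V → Option κ} {a b : κ} {u v : V} (h : u ∈ Kc c a b v) :
    v ∈ Kc c a b u := by
  have h' : Relation.ReflTransGen (Step c a b) v u := h
  show Relation.ReflTransGen (Step c a b) u v
  induction h' with
  | refl => exact Relation.ReflTransGen.refl
  | tail h1 h2 ih => exact Relation.ReflTransGen.head h2.symm (ih h1)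

theorem Kc_trans {c : Sym2 V → Option κ} {a b : κ} {u v w : V} (h : u ∈ Kc c a b v)
    (h' : w ∈ Kc c a b u) : w ∈ Kc c a b v :=
  Relation.ReflTransGen.trans h h'

theorem Kc_step {c : Sym2 V → Option κ} {a b : κ} {u v w : V} (h : u ∈ Kc c a b v)
    (h' : Step c a b u w) : w ∈ Kc c a b v :=
  Relation.ReflTransGen.tail h h'

theorem Kc_swap (c : Sym2 V → Option κ) (a b : κ) (v : V) : Kc c a b v = Kc c b a v := by
  have : Step c a b = Step c b a := by
    funext u w; unfold Step; exact propext or_comm
  unfold Kc; rw [this]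

/-- If the colours `a`, `b` inside the component of `v` survive in another colouring, then so do
the connections. -/
theorem Kc_mono {c c' : Sym2 V → Option κ} {a b : κ} {v u : V} (h : u ∈ Kc c a b v)
    (H : ∀ p q, p ∈ Kc c a b v → q ∈ Kc c a b v → Step c a b p q → Step c' a b p q) :
    u ∈ Kc c' a b v := by
  have h2 : Relation.ReflTransGen (Step c a b) v u := h
  induction h2 with
  | refl => exact Relation.ReflTransGen.refl
  | tail h1 h2 ih =>
    exact Kc_step (ih h1) (H _ _ h1 (Kc_step h1 h2) h2)

section swap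

variable [DecidableEq κ]

open Classical in
/-- Exchange `a` and `b` on edges meeting `K`. -/
noncomputable def swapc (c : Sym2 V → Option κ) (K : Set V) (a b : κ) : Sym2 V → Option κ :=
  fun e => if ∃ v ∈ e, v ∈ K then (c e).map (Equiv.swap a b) else c e

theorem swapc_of_mem (c : Sym2 V → Option κ) (K : Set V) (a b : κ) {u v : V} (hu : u ∈ K) :
    swapc c K a b s(u, v) = (c s(u, v)).map (Equiv.swap a b) := by
  unfold swapc
  rw [if_pos ⟨u, by simp, hu⟩]

theorem swapc_of_not_mem (c : Sym2 V → Option κ) (K : Set V) (a b : κ)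
    (hK : ∀ p q, p ∈ K → Step c a b p q → q ∈ K) {u v : V} (hu : u ∉ K) :
    swapc c K a b s(u, v) = c s(u, v) := by
  unfold swapc
  split_ifs with h
  · obtain ⟨w, hw, hwK⟩ := h
    rw [Sym2.mem_iff] at hw
    rcases hw with rfl | rfl
    · exact absurd hwK hu
    · cases hc : c s(u, w) with
      | none => rfl
      | some d =>
        have hda : d ≠ a := by
          rintro rfl
          exact hu (hK w u hwK (Or.inl (by rw [Sym2.eq_swap]; exact hc)))
        have hdb : d ≠ b := by
          rintro rfl
          exact hu (hK w u hwK (Or.inr (by rw [Sym2.eq_swap]; exact hc)))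
        simp [Equiv.swap_apply_of_ne_of_ne hda hdb]
  · rfl

theorem swapc_none (c : Sym2 V → Option κ) (K : Set V) (a b : κ) (e : Sym2 V) :
    swapc c K a b e = none ↔ c e = none := by
  unfold swapc
  split_ifs <;> simp

theorem swapc_proper {c : Sym2 V → Option κ} (hc : Proper c) (K : Set V) (a b : κ)
    (hK : ∀ p q, p ∈ K → Step c a b p q → q ∈ K) : Proper (swapc c K a b) := by
  refine ⟨fun v => (swapc_none _ _ _ _ _).2 (hc.diag v), ?_⟩
  intro u v w d h1 h2
  by_cases hu : u ∈ K
  · rw [swapc_of_mem _ _ _ _ hu] at h1 h2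
    rw [Option.map_eq_some_iff] at h1 h2
    obtain ⟨x, hx, hx'⟩ := h1
    obtain ⟨y, hy, hy'⟩ := h2
    have : x = y := (Equiv.swap a b).injective (hx'.trans hy'.symm)
    subst this
    exact hc.inj u v w x hx hy
  · rw [swapc_of_not_mem _ _ _ _ hK hu] at h1 h2
    exact hc.inj u v w d h1 h2

theorem swapc_miss {c : Sym2 V → Option κ} (K : Set V) (a b : κ) {u : V} (hu : u ∈ K)
    (h : Miss c u b) : Miss (swapc c K a b) u a := by
  intro w hw
  rw [swapc_of_mem _ _ _ _ hu, Option.map_eq_some_iff] at hw
  obtain ⟨x, hx, hx'⟩ := hw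
  have : x = b := by
    rw [Equiv.swap_apply_eq_iff] at hx'
    rw [hx']; simp
  subst this
  exact h w hx

theorem swapc_miss_of_not_mem {c : Sym2 V → Option κ} (K : Set V) (a b : κ)
    (hK : ∀ p q, p ∈ K → Step c a b p q → q ∈ K) {u : V} (hu : u ∉ K) {d : κ}
    (h : Miss c u d) : Miss (swapc c K a b) u d := by
  intro w hw
  rw [swapc_of_not_mem _ _ _ _ hK hu] at hw
  exact h w hw

/-- Completing the colouring by a Kempe change. -/
theorem St.kempe {E : Set (Sym2 V)} {c : Sym2 V → Option κ} {x z : V} (h : St E c x z)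
    {a b : κ} (hx : Miss c x a) (hz : Miss c z b) (hK : x ∉ Kc c a b z) :
    ∃ c', Full E c' ∧
      ∀ e, e ≠ s(x, z) → (∀ v ∈ e, v ∉ Kc c a b z) → c' e = c e := by
  classical
  have hcl : ∀ p q, p ∈ Kc c a b z → Step c a b p q → q ∈ Kc c a b z :=
    fun p q hp hs => Kc_step hp hs
  have hst : St E (swapc c (Kc c a b z) a b) x z := by
    refine ⟨swapc_proper h.proper _ _ _ hcl, (swapc_none _ _ _ _ _).2 h.none_pq, h.ne, ?_⟩
    intro e
    rw [h.mem e, Ne, Ne, swapc_none]
  refine ⟨_, hst.complete (a := a) (swapc_miss_of_not_mem _ _ _ hcl hK hx)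
    (swapc_miss _ _ _ (self_mem_Kc _ _ _ _) hz), ?_⟩
  intro e he hv
  rw [Function.update_of_ne he]
  unfold swapc
  rw [if_neg]
  rintro ⟨v, hv1, hv2⟩
  exact hv v hv1 hv2

end swap

/-- The alternating sequence of colours. -/
def alt (a b : κ) (i : ℕ) : κ := if i % 2 = 0 then a else b

theorem alt_zero (a b : κ) : alt a b 0 = a := rfl
theorem alt_one (a b : κ) : alt a b 1 = b := rfl
theorem alt_add_two (a b : κ) (i : ℕ) : alt a b (i + 2) = alt a b i := by
  unfold alt; rw [Nat.add_mod_right]
theorem alt_mem (a b : κ) (i : ℕ) : alt a b i = a ∨ alt a b i = b := by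
  unfold alt; split_ifs <;> simp
theorem alt_succ_ne {a b : κ} (hab : a ≠ b) (i : ℕ) : alt a b (i + 1) ≠ alt a b i := by
  unfold alt
  have : i % 2 = 0 ∨ i % 2 = 1 := by omega
  rcases this with h | h
  · rw [if_neg (by omega), if_pos h]; exact hab.symm
  · rw [if_pos (by omega), if_neg (by omega)]; exact hab
theorem alt_eq_or {a b d : κ} (hd : d = a ∨ d = b) (i : ℕ) :
    d = alt a b i ∨ d = alt a b (i + 1) := by
  unfold alt
  have : i % 2 = 0 ∨ i % 2 = 1 := by omega
  rcases this with h | h
  · rw [if_pos h, if_neg (by omega)]; exact hd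
  · rw [if_neg (by omega), if_pos (by omega)]; exact hd.symm
theorem alt_congr {a b : κ} {i j : ℕ} (h : i % 2 = j % 2) : alt a b i = alt a b j := by
  unfold alt; rw [h]

/-- An alternating walk of length `n`. -/
def Walk (c : Sym2 V → Option κ) (a b : κ) (w : ℕ → V) (n : ℕ) : Prop :=
  ∀ i < n, c s(w i, w (i + 1)) = some (alt a b i)

theorem exists_walk {c : Sym2 V → Option κ} (hc : Proper c) {a b : κ} {v u : V}
    (hv : Miss c v b) (hu : u ∈ Kc c a b v) :
    ∃ (w : ℕ → V) (n : ℕ), w 0 = v ∧ w n = u ∧ Walk c a b w n := by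
  have h2 : Relation.ReflTransGen (Step c a b) v u := hu
  induction h2 with
  | refl => exact ⟨fun _ => v, 0, rfl, rfl, fun i hi => absurd hi (Nat.not_lt_zero i)⟩
  | @tail p q h1 h2 ih =>
    obtain ⟨w, n, h0, hn, hw⟩ := ih h1
    obtain ⟨d, hd, hcd⟩ : ∃ d, (d = a ∨ d = b) ∧ c s(p, q) = some d := by
      rcases h2 with h | h
      · exact ⟨a, Or.inl rfl, h⟩
      · exact ⟨b, Or.inr rfl, h⟩
    have ext : d = alt a b n → ∃ (w : ℕ → V) (n : ℕ), w 0 = v ∧ w n = q ∧ Walk c a b w n := by
      intro hdn
      refine ⟨fun i => if i ≤ n then w i else q, n + 1, by simp [h0], by simp, ?_⟩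
      intro i hi
      rcases Nat.lt_succ_iff_lt_or_eq.1 hi with hi | rfl
      · simp only [if_pos (Nat.le_of_lt hi), if_pos (Nat.succ_le_of_lt hi)]
        exact hw i hi
      · simp only [le_refl, if_true, if_neg (Nat.not_succ_le_self i)]
        rw [hn, ← hdn]; exact hcd
    cases n with
    | zero =>
      apply ext
      rcases hd with rfl | rfl
      · rfl
      · have : p = v := hn.symm.trans h0
        subst this
        exact absurd hcd (hv q)
    | succ n =>
      rcases alt_eq_or hd n with h | h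
      · -- go back
        have h3 : c s(w n, w (n + 1)) = some d := by rw [h]; exact hw n (Nat.lt_succ_self n)
        rw [hn] at h3
        have h4 : w n = q := hc.inj p (w n) q d (by rw [Sym2.eq_swap]; exact h3) hcd
        exact ⟨w, n, h0, h4, fun i hi => hw i (Nat.lt_succ_of_lt hi)⟩
      · exact ext h

theorem walk_last_miss {c : Sym2 V → Option κ} {a b : κ} {w : ℕ → V} {n : ℕ}
    (hw : Walk c a b w n) (hn : 0 < n) (hm : Miss c (w n) a ∨ Miss c (w n) b) :
    Miss c (w n) (alt a b n) := by
  obtain ⟨k, rfl⟩ : ∃ k, n = k + 1 := ⟨n - 1, by omega⟩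
  have h1 : c s(w (k + 1), w k) = some (alt a b k) := by
    rw [Sym2.eq_swap]; exact hw k (Nat.lt_succ_self k)
  have h2 : ∀ d, (d = a ∨ d = b) → Miss c (w (k + 1)) d → Miss c (w (k + 1)) (alt a b (k + 1)) := by
    intro d hd hm
    rcases alt_eq_or hd k with h | h
    · rw [h] at hm; exact absurd h1 (hm _)
    · rw [h] at hm; exact hm
  rcases hm with hm | hm
  · exact h2 a (Or.inl rfl) hm
  · exact h2 b (Or.inr rfl) hm

theorem walk_det {c : Sym2 V → Option κ} (hc : Proper c) {a b : κ} {w w' : ℕ → V} {n n' : ℕ}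
    (hw : Walk c a b w n) (hw' : Walk c a b w' n') (h0 : w 0 = w' 0) :
    ∀ i, i ≤ n → i ≤ n' → w i = w' i := by
  intro i
  induction i with
  | zero => intro _ _; exact h0
  | succ i ih =>
    intro h1 h2
    have h3 := ih (by omega) (by omega)
    have h4 := hw i h1
    have h5 := hw' i h2
    rw [← h3] at h5
    exact hc.inj _ _ _ _ h4 h5

/-- A two-coloured path has at most two ends. -/
theorem endpoint_unique {c : Sym2 V → Option κ} (hc : Proper c) {a b : κ} {v u u' : V}
    (hv : Miss c v a ∨ Miss c v b) (hu : u ∈ Kc c a b v) (hu' : u' ∈ Kc c a b v)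
    (hne : u ≠ v) (hne' : u' ≠ v) (hm : Miss c u a ∨ Miss c u b)
    (hm' : Miss c u' a ∨ Miss c u' b) : u = u' := by
  have main : ∀ a b : κ, Miss c v b → u ∈ Kc c a b v → u' ∈ Kc c a b v →
      (Miss c u a ∨ Miss c u b) → (Miss c u' a ∨ Miss c u' b) → u = u' := by
    intro a b hv hu hu' hm hm'
    obtain ⟨w, n, h0, hn, hw⟩ := exists_walk hc hv hu
    obtain ⟨w', n', h0', hn', hw'⟩ := exists_walk hc hv hu'
    have hnpos : 0 < n := by
      rcases Nat.eq_zero_or_pos n with h | h
      · subst h; exact absurd (hn.symm.trans h0) hne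
      · exact h
    have hnpos' : 0 < n' := by
      rcases Nat.eq_zero_or_pos n' with h | h
      · subst h; exact absurd (hn'.symm.trans h0') hne'
      · exact h
    have hl := walk_last_miss hw hnpos (by rw [hn]; exact hm)
    have hl' := walk_last_miss hw' hnpos' (by rw [hn']; exact hm')
    have hd := walk_det hc hw hw' (h0.trans h0'.symm)
    rcases Nat.lt_trichotomy n n' with h | h | h
    · have h1 := hd n le_rfl (le_of_lt h)
      have h2 := hw' n h
      rw [← h1] at h2
      exact absurd h2 (hl _)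
    · subst h
      rw [← hn, ← hn']; exact hd n le_rfl le_rfl
    · have h1 := hd n' (le_of_lt h) le_rfl
      have h2 := hw n' h
      rw [h1] at h2
      exact absurd h2 (hl' _)
  rcases hv with hv | hv
  · rw [Kc_swap] at hu hu'
    exact main b a hv hu hu' hm.symm hm'.symm
  · exact main a b hv hu hu' hm hm'

/-- The walk along a two-coloured path starting at one of its ends is injective. -/
theorem walk_injective {c : Sym2 V → Option κ} (hc : Proper c) {a b : κ}
    {w : ℕ → V} {n : ℕ} (hw : Walk c a b w n) (h0 : Miss c (w 0) b) :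
    ∀ i j, i < j → j ≤ n → w i ≠ w j := by
  -- odd differences
  have odd : ∀ m i, i + (2 * m + 1) ≤ n → w i ≠ w (i + (2 * m + 1)) := by
    intro m
    induction m with
    | zero =>
      intro i hi h
      have h1 := hw i (by omega)
      have h2 : w (i + 1) = w i := by rw [show i + 1 = i + (2 * 0 + 1) from rfl]; exact h.symm
      rw [h2, hc.diag] at h1
      exact absurd h1 (by simp)
    | succ m ih =>
      intro i hi h
      have h1 := hw i (by omega)
      have h2 := hw (i + (2 * m + 2)) (by omega)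
      have h3 : alt a b (i + (2 * m + 2)) = alt a b i := alt_congr (by omega)
      rw [h3, show i + (2 * m + 2) + 1 = i + (2 * (m + 1) + 1) by ring, ← h, Sym2.eq_swap] at h2
      have h4 := hc.inj _ _ _ _ h1 h2
      apply ih (i + 1) (by omega)
      rw [h4]; congr 1; omega
  -- even differences
  have even : ∀ m i, i + (2 * m + 2) ≤ n → w i ≠ w (i + (2 * m + 2)) := by
    intro m i
    induction i with
    | zero =>
      intro hi h
      have h2 := hw (0 + (2 * m + 1)) (by omega)
      have h3 : alt a b (0 + (2 * m + 1)) = b := by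
        rw [← alt_one a b]; exact alt_congr (by omega)
      rw [h3, show 0 + (2 * m + 1) + 1 = 0 + (2 * m + 2) by ring, ← h, Sym2.eq_swap] at h2
      exact h0 _ h2
    | succ i ih =>
      intro hi h
      have h1 := hw i (by omega)
      have h2 := hw (i + (2 * m + 2)) (by omega)
      have h3 : alt a b (i + (2 * m + 2)) = alt a b i := alt_congr (by omega)
      rw [h3, show i + (2 * m + 2) + 1 = i + 1 + (2 * m + 2) by ring, ← h] at h2
      exact ih (by omega) (hc.inj' h1 h2)
  intro i j hij hj
  rcases Nat.even_or_odd' (j - i) with ⟨m, hm | hm⟩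
  · have : j = i + (2 * (m - 1) + 2) := by omega
    rw [this]; exact even _ _ (by omega)
  · have : j = i + (2 * m + 1) := by omega
    rw [this]; exact odd _ _ (by omega)

end Pool.Agent.Helper561.Kempe
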